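import Pool.Agent.Helper28.HH.Tri
import Pool.Agent.Helper28.HH.Sz
import Pool.Agent.Helper28.HH.Row
import Pool.Agent.Helper28.HH.StA1

/-!
# Project HG (MP_6ec8e4_ag): windows after special points

A family `x ≥ y ≥ ...` of special points with `∑ m_k ≤ n` is placed first, at the row `0`.  It removes
`u0 b = ∑_k (m_k - b)^+` elements from the row `b`.  `Base n p q M u0` collects what is used about `u0`:
`p` = largest special multiplicity, `q` = second largest, `M` = bound of the other multiplicities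
(`p + M ≤ n`).  `p = q = 0`, `u0 = 0` is the case without special points.
Row lengths `L b = n - b - u0 b`: strictly increasing on `[0,q]`, constant on `[q,p]`, `n - b` from `p` on.
-/

set_option autoImplicit false

namespace Pool.Agent.Helper28.HG

open Pool.Agent.Helper28.HH

structure Base (n p q M : ℕ) (u0 : ℕ → ℕ) : Prop where
  B0 : ∀ b, b ≤ p → u0 b + b ≤ n
  B1 : ∀ b, p ≤ b → u0 b = 0
  B2 : ∀ b, b < q → u0 (b + 1) + 2 ≤ u0 b
  B3 : ∀ b, b < p → u0 (b + 1) + 1 ≤ u0 b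
  B4 : ∀ b, q ≤ b → b < p → M + b + u0 b ≤ n
  B5 : p = 0 ∨ p + M ≤ n
  B6 : q ≤ p

lemma Base.le_n {n p q M : ℕ} {u0 : ℕ → ℕ} (h : Base n p q M u0) : p ≤ n := by
  have h1 := h.B0 p le_rfl
  omega

lemma Base.anti {n p q M : ℕ} {u0 : ℕ → ℕ} (h : Base n p q M u0) (b : ℕ) : u0 (b + 1) ≤ u0 b := by
  rcases Nat.lt_or_ge b p with hb | hb
  · have := h.B3 b hb
    omega
  · rw [h.B1 b hb, h.B1 (b + 1) (by omega)]

lemma Base.cap {n p q M : ℕ} {u0 : ℕ → ℕ} (h : Base n p q M u0) (b : ℕ) : u0 b ≤ n - b := by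
  rcases Nat.lt_or_ge b p with hb | hb
  · have := h.B0 b hb.le
    omega
  · rw [h.B1 b hb]
    omega

/-- `L` is strictly increasing below `q` -/
lemma Base.lt {n p q M : ℕ} {u0 : ℕ → ℕ} (h : Base n p q M u0) {b : ℕ} (hb : b < q) :
    n - b - u0 b < n - (b + 1) - u0 (b + 1) := by
  have h1 := h.B2 b hb
  have h2 := h.B6
  have h3 := h.B0 b (by omega)
  omega

/-- `L` is nondecreasing below `p` -/
lemma Base.le {n p q M : ℕ} {u0 : ℕ → ℕ} (h : Base n p q M u0) {b : ℕ} (hb : b < p) :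
    n - b - u0 b ≤ n - (b + 1) - u0 (b + 1) := by
  have h1 := h.B3 b hb
  have h3 := h.B0 b (by omega)
  omega

/-- `L` drops by at most one -/
lemma Base.drop {n p q M : ℕ} {u0 : ℕ → ℕ} (h : Base n p q M u0) (b : ℕ) :
    n - b - u0 b ≤ n - (b + 1) - u0 (b + 1) + 1 := by
  have h1 := h.anti b
  omega

/-- the case without special points -/
lemma Base.zero (n M : ℕ) : Base n 0 0 M (fun _ => 0) where
  B0 := by intro b hb; omega
  B1 := by intro b hb; rfl
  B2 := by intro b hb; omega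
  B3 := by intro b hb; omega
  B4 := by intro b hb hb'; omega
  B5 := Or.inl rfl
  B6 := le_rfl

/-- the invariant of the independence statement: rows below `i` empty, rows `≥ F` untouched (`u = u0`) -/
structure InvG (n p : ℕ) (u0 u : ℕ → ℕ) (i F F' μ : ℕ) : Prop where
  A0 : ∀ b, b < i → n - b - u b = 0
  A1 : ∀ b, F ≤ b → u b = u0 b
  A2 : ∀ b, u0 b ≤ u b ∧ u b ≤ n - b
  A3 : ∀ b, i ≤ b → b < F → u (b + 1) + u0 b + 1 ≤ u b + u0 (b + 1)
  A4 : ∀ b, i ≤ b → b < F' → n - b - u b < n - (b + 1) - u (b + 1)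
  A5 : ∀ b, i ≤ b → F' ≤ b → b < F → p ≤ b → u b + (b - i) ≤ μ
  A6 : F ≤ i + μ
  A7 : F' ≤ F

end Pool.Agent.Helper28.HG
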