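import Pool.Agent.Helper28.HH.Qs0

/-!
# Project HG: Bezout with the line through two points (block HG-BZ)

`line_bound`.  Let `f` be irreducible of total degree `d ≥ 2` with multiplicities `≥ m i`, `≥ m j` at `P = p i ≠ Q = p j`
(`i ≠ j`).  Then `m i + m j ≤ d`.  PROOF.  `v = Q - P ≠ 0`.  `F(t) = f(P + t v)`, a polynomial of degree `≤ d` in `t`
(`aeval (fun k => C (P k) + C (v k) * X)`), is divisible by `X^(m i)` and by `(X - 1)^(m j)`: `f(X + P)` has no monomials of
degree `< m i` (`Van`), substitute `X ↦ t v`; same at `Q` with `t - 1`.  The two factors are coprime, so if `m i + m j > d` then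
`F = 0`.  Choose `w` with `v, w` a basis of `ℂ^2` and put `h(X0, X1) = f(P + X0 v + X1 w)`: `h(X0, 0) = 0`, so
`X 1 ∣ h` (every monomial with exponent `0` at `X 1` has coefficient `0`).  The substitution is an automorphism `φ` of
`MvPolynomial (Fin 2) ℂ` (affine change of coordinates, inverse explicitly), so `ℓ = φ⁻¹ (X 1)` divides `f`, `ℓ` has total
degree `≤ 1` and is not a unit; `f` irreducible gives `f = ℓ * unit`, `totalDegree f ≤ 1`, contradiction.
(Alternative for the last step: `f = ℓ * g` with `ℓ(x) = v 0 (x 1 - P 1) - v 1 (x 0 - P 0)`.)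
`QS.line`: if `d < m i + m j` then `QS n d m` holds with `g = X (i,0) - X (j,0)` (`g(p) ≠ 0` gives `p i ≠ p j`), vacuously.
-/

set_option autoImplicit false

namespace Pool.Agent.Helper28.HG

open Pool.Agent.Helper28.HH MvPolynomial

/-- the line through two points divides the polynomial when the restriction vanishes -/
lemma line_dvd (P v c : Fin 2 → ℂ) (f : MvPolynomial (Fin 2) ℂ) (hc : c 0 * v 0 + c 1 * v 1 = 1)
    (hF : MvPolynomial.aeval
      (fun k : Fin 2 => (Polynomial.C (P k) + Polynomial.C (v k) * Polynomial.X : Polynomial ℂ)) f = 0) :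
    (C (v 0) * (X 1 - C (P 1)) - C (v 1) * (X 0 - C (P 0)) : MvPolynomial (Fin 2) ℂ) ∣ f := by
  set l : MvPolynomial (Fin 2) ℂ := C (v 0) * (X 1 - C (P 1)) - C (v 1) * (X 0 - C (P 0)) with hl
  set t : MvPolynomial (Fin 2) ℂ := C (c 0) * (X 0 - C (P 0)) + C (c 1) * (X 1 - C (P 1)) with ht
  have hc' : (C (c 0) * C (v 0) + C (c 1) * C (v 1) : MvPolynomial (Fin 2) ℂ) = 1 := by
    rw [← C_mul, ← C_mul, ← C_add, hc, C_1]
  have h0 : (X 0 : MvPolynomial (Fin 2) ℂ) - (C (P 0) + C (v 0) * t) = - C (c 1) * l := by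
    rw [hl, ht]
    linear_combination (-(X 0 - C (P 0)) : MvPolynomial (Fin 2) ℂ) * hc'
  have h1 : (X 1 : MvPolynomial (Fin 2) ℂ) - (C (P 1) + C (v 1) * t) = C (c 0) * l := by
    rw [hl, ht]
    linear_combination (-(X 1 - C (P 1)) : MvPolynomial (Fin 2) ℂ) * hc'
  have hk : ∀ k : Fin 2, l ∣ (X k : MvPolynomial (Fin 2) ℂ) - (C (P k) + C (v k) * t) := by
    intro k
    fin_cases k
    · exact ⟨- C (c 1), by simpa [mul_comm] using h0⟩
    · exact ⟨C (c 0), by simpa [mul_comm] using h1⟩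
  have h2 : (Ideal.Quotient.mkₐ ℂ (Ideal.span {l})).comp (AlgHom.id ℂ (MvPolynomial (Fin 2) ℂ))
      = (Ideal.Quotient.mkₐ ℂ (Ideal.span {l})).comp
        (MvPolynomial.aeval (fun k : Fin 2 => (C (P k) + C (v k) * t : MvPolynomial (Fin 2) ℂ))) := by
    apply MvPolynomial.algHom_ext
    intro k
    rw [AlgHom.comp_apply, AlgHom.comp_apply, aeval_X, AlgHom.id_apply, Ideal.Quotient.mkₐ_eq_mk,
      Ideal.Quotient.eq, Ideal.mem_span_singleton]
    exact hk k
  have h3 : MvPolynomial.aeval (fun k : Fin 2 => (C (P k) + C (v k) * t : MvPolynomial (Fin 2) ℂ)) f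
      = Polynomial.aeval t (MvPolynomial.aeval
      (fun k : Fin 2 => (Polynomial.C (P k) + Polynomial.C (v k) * Polynomial.X : Polynomial ℂ)) f) := by
    have h4 : MvPolynomial.aeval (fun k : Fin 2 => (C (P k) + C (v k) * t : MvPolynomial (Fin 2) ℂ))
        = (Polynomial.aeval t).comp (MvPolynomial.aeval
      (fun k : Fin 2 => (Polynomial.C (P k) + Polynomial.C (v k) * Polynomial.X : Polynomial ℂ))) := by
      apply MvPolynomial.algHom_ext
      intro k
      rw [AlgHom.comp_apply, aeval_X, aeval_X, map_add, map_mul, Polynomial.aeval_C, Polynomial.aeval_C,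
        Polynomial.aeval_X]
      rfl
    rw [h4, AlgHom.comp_apply]
  have h5 := DFunLike.congr_fun h2 f
  rw [AlgHom.comp_apply, AlgHom.comp_apply, AlgHom.id_apply, h3, hF, map_zero, map_zero,
    Ideal.Quotient.mkₐ_eq_mk, Ideal.Quotient.eq_zero_iff_mem, Ideal.mem_span_singleton] at h5
  exact h5

/-- low coefficients vanish, so powers divide after a substitution -/
lemma pow_dvd_subst (v : Fin 2 → ℂ) (S : Polynomial ℂ) (m : ℕ) (g : MvPolynomial (Fin 2) ℂ)
    (hg : ∀ s : Fin 2 →₀ ℕ, s 0 + s 1 < m → MvPolynomial.coeff s g = 0) :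
    S ^ m ∣ MvPolynomial.aeval (fun k : Fin 2 => (Polynomial.C (v k) * S : Polynomial ℂ)) g := by
  rw [MvPolynomial.aeval_def, MvPolynomial.eval₂_eq']
  refine Finset.dvd_sum fun s hs => ?_
  have h1 : m ≤ s 0 + s 1 := by
    by_contra h
    exact (MvPolynomial.mem_support_iff.1 hs) (hg s (by omega))
  rw [Fin.prod_univ_two]
  refine Dvd.dvd.mul_left ?_ _
  rw [mul_pow, mul_pow]
  have h2 : S ^ m ∣ S ^ s 0 * S ^ s 1 := by
    rw [← pow_add]
    exact pow_dvd_pow S h1
  calc S ^ m ∣ S ^ s 0 * S ^ s 1 := h2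
    _ ∣ Polynomial.C (v 0) ^ s 0 * S ^ s 0 * (Polynomial.C (v 1) ^ s 1 * S ^ s 1) :=
      ⟨Polynomial.C (v 0) ^ s 0 * Polynomial.C (v 1) ^ s 1, by ring⟩

theorem line_bound {n d : ℕ} {m : Fin n → ℕ} {p : Fin n → Fin 2 → ℂ} {f : MvPolynomial (Fin 2) ℂ}
    (hf : Irreducible f) (hd : f.totalDegree = d) (h2 : 2 ≤ d) (hV : Van m p f) {i j : Fin n}
    (hij : i ≠ j) (hp : p i ≠ p j) : m i + m j ≤ d := by
  have _ := hij
  by_contra hlt
  rw [not_le] at hlt
  set v : Fin 2 → ℂ := fun k => p j k - p i k with hv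
  set F : Polynomial ℂ := MvPolynomial.aeval
      (fun k : Fin 2 => (Polynomial.C (p i k) + Polynomial.C (v k) * Polynomial.X : Polynomial ℂ)) f with hFdef
  have hA : Polynomial.X ^ m i ∣ F := by
    have h1 : F = MvPolynomial.aeval (fun k : Fin 2 => (Polynomial.C (v k) * Polynomial.X : Polynomial ℂ))
        (MvPolynomial.aeval (fun k : Fin 2 => (X k + C (p i k) : MvPolynomial (Fin 2) ℂ)) f) := by
      rw [hFdef, ← AlgHom.comp_apply]
      congr 1
      apply MvPolynomial.algHom_ext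
      intro k
      rw [AlgHom.comp_apply, aeval_X, aeval_X, map_add, aeval_X, aeval_C, add_comm]
      rfl
    rw [h1]
    exact pow_dvd_subst v Polynomial.X (m i) _ (hV i)
  have hB : (Polynomial.X - Polynomial.C 1) ^ m j ∣ F := by
    have h1 : F = MvPolynomial.aeval (fun k : Fin 2 =>
          (Polynomial.C (v k) * (Polynomial.X - Polynomial.C 1) : Polynomial ℂ))
        (MvPolynomial.aeval (fun k : Fin 2 => (X k + C (p j k) : MvPolynomial (Fin 2) ℂ)) f) := by
      rw [hFdef, ← AlgHom.comp_apply]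
      congr 1
      apply MvPolynomial.algHom_ext
      intro k
      rw [AlgHom.comp_apply, aeval_X, aeval_X, map_add, aeval_X, aeval_C]
      change _ = Polynomial.C (v k) * (Polynomial.X - Polynomial.C 1) + Polynomial.C (p j k)
      have h3 : p j k = p i k + v k := by rw [hv]; ring
      rw [h3, Polynomial.C_add, Polynomial.C_1]
      ring
    rw [h1]
    exact pow_dvd_subst v _ (m j) _ (hV j)
  have hcop : IsCoprime (Polynomial.X ^ m i : Polynomial ℂ) ((Polynomial.X - Polynomial.C 1) ^ m j) := by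
    apply IsCoprime.pow
    exact ⟨1, -1, by rw [Polynomial.C_1]; ring⟩
  have hAB : Polynomial.X ^ m i * (Polynomial.X - Polynomial.C 1) ^ m j ∣ F := hcop.mul_dvd hA hB
  have hdeg : F.natDegree ≤ d * 1 := by
    refine MvPolynomial.aeval_natDegree_le f (le_of_eq hd) _ (fun k => ?_)
    refine (Polynomial.natDegree_add_le _ _).trans (max_le ?_ ?_)
    · rw [Polynomial.natDegree_C]; exact Nat.zero_le 1
    · exact (Polynomial.natDegree_C_mul_le _ _).trans Polynomial.natDegree_X_le
  have hF0 : F = 0 := by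
    by_contra hne
    have h3 := Polynomial.natDegree_le_of_dvd hAB hne
    rw [Polynomial.natDegree_mul (pow_ne_zero _ Polynomial.X_ne_zero)
      (pow_ne_zero _ (Polynomial.X_sub_C_ne_zero 1)), Polynomial.natDegree_X_pow,
      Polynomial.natDegree_pow, Polynomial.natDegree_X_sub_C, mul_one] at h3
    omega
  obtain ⟨c, hc⟩ : ∃ c : Fin 2 → ℂ, c 0 * v 0 + c 1 * v 1 = 1 := by
    by_cases h0 : v 0 = 0
    · have h1 : v 1 ≠ 0 := by
        intro h1
        apply hp
        funext k
        have hk : v k = 0 := by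
          fin_cases k
          · exact h0
          · exact h1
        rw [hv] at hk
        exact (sub_eq_zero.1 hk).symm
      exact ⟨![0, (v 1)⁻¹], by simp [h1]⟩
    · exact ⟨![(v 0)⁻¹, 0], by simp [h0]⟩
  have hdvd := line_dvd (p i) v c f hc hF0
  set l : MvPolynomial (Fin 2) ℂ := C (v 0) * (X 1 - C (p i 1)) - C (v 1) * (X 0 - C (p i 0)) with hl
  obtain ⟨u, hu⟩ := hdvd
  have hlu : ¬ IsUnit l := by
    intro h
    have h3 : IsUnit (MvPolynomial.eval (p i) l) := h.map (MvPolynomial.eval (p i))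
    rw [hl] at h3
    simp at h3
  have huu : IsUnit u := (hf.isUnit_or_isUnit hu).resolve_left hlu
  have hu0 : u.totalDegree = 0 := by
    obtain ⟨_, h3⟩ := MvPolynomial.isUnit_iff_totalDegree_of_isReduced.1 huu
    exact h3
  have hl1 : l.totalDegree ≤ 1 := by
    have hlin : ∀ (a b : ℂ) (k : Fin 2), (C a * (X k - C b) : MvPolynomial (Fin 2) ℂ).totalDegree ≤ 1 := by
      intro a b k
      refine (MvPolynomial.totalDegree_mul _ _).trans ?_
      rw [MvPolynomial.totalDegree_C, zero_add]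
      refine (MvPolynomial.totalDegree_sub_C_le _ _).trans ?_
      rw [MvPolynomial.totalDegree_X]
    rw [hl]
    exact (MvPolynomial.totalDegree_sub _ _).trans (max_le (hlin _ _ _) (hlin _ _ _))
  have h4 : f.totalDegree ≤ 1 := by
    rw [hu]
    refine (MvPolynomial.totalDegree_mul _ _).trans ?_
    omega
  omega

theorem QS.line {n d : ℕ} {m : Fin n → ℕ} (h2 : 2 ≤ d) {i j : Fin n} (hij : i ≠ j)
    (h : d < m i + m j) : QS n d m := by
  refine ⟨X (i, 0) - X (j, 0), ?_, fun p hp ⟨f, hf, hd, hV⟩ => ?_⟩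
  · intro h0
    have h1 := congrArg (MvPolynomial.eval (fun ij : Fin n × Fin 2 => if ij = (i, 0) then (1 : ℂ) else 0)) h0
    rw [map_sub, eval_X, eval_X, map_zero, if_pos rfl, if_neg] at h1
    · simp at h1
    · intro h2
      exact hij (Prod.mk.inj h2).1.symm
  · exfalso
    have hpne : p i ≠ p j := by
      intro h1
      apply hp
      rw [map_sub, eval_X, eval_X, h1, sub_self]
    have h3 := line_bound hf hd h2 hV hij hpne
    omega

end Pool.Agent.Helper28.HG
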