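import Pool.Agent.Helper28.HG.Inv

/-!
# Project HG: short surviving rows (block HG-E2)

`r b = n - b - u b`, `ũ b = u b - u0 b`, `J b = hh n u b 0`, `f γ = γ + hh n u b γ`.  Adapt `hh_eq_zero`, `short_row`
(HH/StE2.lean) and `short_strict` (HH/StE2c.lean).

`hh_eq_zero`: from `InvF.nested`.
`short_row`: `x = r b < m`; there is `γ < x` with `f γ ≥ m` (else `sl b = x`).  Take `b1` of V3.  If `b ≤ b1`: the nonempty
rows below `b` have strictly increasing sizes, so `hh n u b γ ≤ x - 1 - γ` for `γ < x`, `f γ ≤ x - 1 < m`: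
contradiction.  If `b1 ≤ b`: `q ≤ b`; if `u b = u0 b` then `x ≥ m1 + 1` by `Base.long`, contradiction; so
`u b + J b ≤ μ + u0 b`, and `x = (n - b - u0 b) - (u b - u0 b) ≥ m1 + 1 - (μ - J b) ≥ J b + 1` (`Base.long`, `μ ≤ m ≤ m1`).
`short_strict`: the proof of HH/StE2c.lean uses only `short_row` (it can be copied).
-/

set_option autoImplicit false

namespace Pool.Agent.Helper28.HG

open Pool.Agent.Helper28.HH

lemma InvF.hh_eq_zero {n m1 p q m : ℕ} {u0 u : ℕ → ℕ} {μ : ℕ} (h : InvF n m1 p q u0 u μ) (hm : m ≤ m1)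
    {b γ : ℕ} (hb : b < n - m1) (h1 : n - b - u b ≤ γ) (h2 : γ < m) : hh n u b γ = 0 := by
  unfold hh
  rw [Finset.card_eq_zero, Finset.filter_eq_empty_iff]
  intro b' hb'
  rw [Finset.mem_range] at hb'
  have h3 := h.nested hm b' b hb' hb
  have h4 : min (n - b - u b) m = n - b - u b := min_eq_left (h1.trans h2.le)
  rw [h4] at h3
  rcases min_le_iff.1 h3 with h5 | h5 <;> omega

lemma InvF.short_row {n m1 p q m : ℕ} {u0 u : ℕ → ℕ} {μ : ℕ} (hB : Base n p q (m1 + 1) u0)
    (h : InvF n m1 p q u0 u μ) (hμ : μ ≤ m) (hm : m ≤ m1) {b : ℕ} (hb : b < n - m1) (h1 : n - b - u b < m)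
    (h2 : sl n m u b < n - b - u b) : hh n u b 0 + 1 ≤ n - b - u b := by
  obtain ⟨b1, hq, hV, hW⟩ := h.V3
  rcases Nat.lt_or_ge b b1 with hbb | hbb
  · have key : ∀ k b', b' + k = b → 0 < n - b' - u b' → n - b' - u b' + k ≤ n - b - u b := by
      intro k
      induction k with
      | zero =>
        intro b' hb' _
        have : b' = b := by omega
        rw [this]
        omega
      | succ k ih =>
        intro b' hb' hpos
        have h3 := hV b' (by omega) (by omega) (by omega)
        have h4 := ih (b' + 1) (by omega) (by omega)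
        omega
    have hsub : (Finset.range b).filter (fun b' => 0 < n - b' - u b') ⊆
        Finset.Ico (b + 1 - (n - b - u b)) b := by
      intro b' hb'
      rw [Finset.mem_filter, Finset.mem_range] at hb'
      have h3 := key (b - b') b' (by omega) hb'.2
      rw [Finset.mem_Ico]
      omega
    have h3 := Finset.card_le_card hsub
    rw [Nat.card_Ico] at h3
    unfold hh
    omega
  · have hl := hB.long (hq.trans hbb) hb
    have hv := h.V1 b hb
    rcases hW b hbb hb with h3 | h3 <;> omega

lemma InvF.short_strict {n m1 p q m : ℕ} {u0 u : ℕ → ℕ} {μ : ℕ} (hB : Base n p q (m1 + 1) u0)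
    (h : InvF n m1 p q u0 u μ) (hμ : μ ≤ m) (hm : m ≤ m1) {b : ℕ} (hb : b < n - m1) (h1 : n - b - u b < m)
    (h2 : sl n m u b < n - b - u b) :
    ((Finset.range (n - b - u b)).filter (fun γ => γ + hh n u b γ + 1 < m)).card + 1 ≤ sl n m u b ∧
      ss n m u (b + 1) + 1 ≤ ss n m u b := by
  have h3 := InvF.short_row hB h hμ hm hb h1 h2
  have hmin : min (n - b - u b) m = n - b - u b := min_eq_left h1.le
  obtain ⟨γ0, hγ0, hγm⟩ : ∃ γ0, γ0 < n - b - u b ∧ m ≤ γ0 + hh n u b γ0 := by
    by_contra hcon
    push Not at hcon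
    have h4 : sl n m u b = n - b - u b := by
      unfold sl
      rw [hmin, Finset.filter_true_of_mem, Finset.card_range]
      intro γ hγ
      have := hcon γ (Finset.mem_range.mp hγ)
      omega
    omega
  have hpos : 0 < γ0 := by
    rcases Nat.eq_zero_or_pos γ0 with h0 | h0
    · subst h0
      omega
    · exact h0
  obtain ⟨γ, -, hγ, hγe⟩ := step_value m (fun γ => γ + hh n u b γ)
    (fun γ => by have := hh_anti n u b γ; show γ + 1 + hh n u b (γ + 1) ≤ γ + hh n u b γ + 1; omega)
    hpos (show 0 + hh n u b 0 < m by omega) hγm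
  have hγe' : γ + hh n u b γ + 1 = m := hγe
  have hγx : γ < n - b - u b := by omega
  constructor
  · have hn : γ ∉ (Finset.range (n - b - u b)).filter (fun γ => γ + hh n u b γ + 1 < m) := by
      rw [Finset.mem_filter]
      rintro ⟨-, h5⟩
      omega
    rw [← Finset.card_insert_of_notMem hn]
    unfold sl
    rw [hmin]
    apply Finset.card_le_card
    intro g hg
    rw [Finset.mem_insert] at hg
    rw [Finset.mem_filter, Finset.mem_range]
    rcases hg with rfl | hg
    · exact ⟨hγx, by omega⟩
    · rw [Finset.mem_filter, Finset.mem_range] at hg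
      exact ⟨hg.1, by omega⟩
  · have hs := hh_succ n u b
    have hn : γ ∉ (Finset.range m).filter (fun γ => γ + hh n u (b + 1) γ < m) := by
      rw [Finset.mem_filter]
      rintro ⟨-, h5⟩
      have h6 := hs γ
      rw [if_pos hγx] at h6
      omega
    unfold ss
    rw [← Finset.card_insert_of_notMem hn]
    apply Finset.card_le_card
    intro g hg
    rw [Finset.mem_insert] at hg
    rw [Finset.mem_filter, Finset.mem_range]
    rcases hg with rfl | hg
    · exact ⟨by omega, by omega⟩
    · rw [Finset.mem_filter, Finset.mem_range] at hg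
      have h6 := hs g
      refine ⟨hg.1, ?_⟩
      have h7 := hg.2
      split_ifs at h6 <;> omega

end Pool.Agent.Helper28.HG
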