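import Pool.Agent.Helper28.HG.E2
import Pool.Agent.Helper28.HH.Tail

/-!
# Project HG: the tail inequality (block HG-E2b), from `tail_abs` (HH/Tail.lean)
-/

set_option autoImplicit false

namespace Pool.Agent.Helper28.HG

open Pool.Agent.Helper28.HH

theorem InvF.tail_le {n m1 p q m : ℕ} {u0 u : ℕ → ℕ} {μ : ℕ} (hB : Base n p q (m1 + 1) u0)
    (h : InvF n m1 p q u0 u μ) (hμ : μ ≤ m) (hm : m ≤ m1) {i : ℕ} (hi : i < n - m1)
    (h2 : sl n m u i < n - i - u i) : 2 * gs n m u i ≤ (m + 1) * sl n m u i :=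
  tail_abs (fun _ h3 h4 => h.hh_eq_zero hm hi h3 h4) (fun h3 => h.short_row hB hμ hm hi h3 h2) h2

end Pool.Agent.Helper28.HG
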