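import Pool.Agent.Helper28.HG.E2

/-!
# Project HG: drop of the sizes, `ss_bound` (block HG-E3)

`r b = n - b - u b`, `r' b = n - b - (u b + sl n m u b)`.  Adapt HH/StE3.lean.

`InvF.drop`: at a surviving row `b` (`sl b < r b`), `b + 1 < n - m1`.
Case `m ≤ r b`.  By V2 `m ≤ r (b+1)` (second alternative: `r (b+1) = n - (b+1) ≥ m1 + 1`).  `sl = ss` at `b`, `b+1` (`sl_eq`),
`ss (b+1) ≤ ss b` (`ss_anti`), and `ss (b+1) + 1 ≤ ss b` if `ss b ≥ 1` (`ss_strict`).
 - `u0 b < u b`: V4 and `ss_ge` give `ss b ≥ 1`; V2 (its second alternative is impossible because `u b ≥ 1`) gives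
   `r b ≤ r (b+1)`; so `r' b < r' (b+1)`: first alternative of the first claim, and the third claim; the second claim is void.
 - `u b = u0 b`: `u (b+1) = u0 (b+1)` (V2b); if `b < q`: `Base.lt` and `ss (b+1) ≤ ss b` give `r' b < r' (b+1)`.  If `ss b ≥ 1`:
   `r' b ≤ r' (b+1)` from `Base.drop` and `ss_strict`, second claim void.  If `ss b = 0`: `sl b = sl (b+1) = 0`: for
   `b < p` `Base.le`, for `p ≤ b` the second alternative (`u0 = 0`).
Case `x = r b < m`.  `r (b+1) ≥ x` (second alternative of V2: `r b = n - b ≥ m1 + 1 > m`, impossible).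
`sl (b+1) ≤ card {γ < x | f_b γ + 1 < m} + (r (b+1) - x)` (`hh_succ`, as in HH/StE3.lean), `≤ sl b - 1 + r (b+1) - x`
(`short_strict`), so `r' b < r' (b+1)`, and `sl b ≥ 1`, so the second claim is void.
`InvF.ss_bound`: as in HH/StE3.lean (`ss_strict`, `short_strict`).
-/

set_option autoImplicit false

namespace Pool.Agent.Helper28.HG

open Pool.Agent.Helper28.HH

lemma InvF.drop {n m1 p q m : ℕ} {u0 u : ℕ → ℕ} {μ : ℕ} (hB : Base n p q (m1 + 1) u0)
    (h : InvF n m1 p q u0 u μ) (hμ : μ ≤ m) (hm : m ≤ m1) {b : ℕ} (hb : b + 1 < n - m1)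
    (h2 : sl n m u b < n - b - u b) :
    (n - b - (u b + sl n m u b) ≤ n - (b + 1) - (u (b + 1) + sl n m u (b + 1)) ∨
      (p ≤ b ∧ u b + sl n m u b = 0 ∧ u (b + 1) + sl n m u (b + 1) = 0)) ∧
    (u b + sl n m u b = u0 b → u (b + 1) + sl n m u (b + 1) = u0 (b + 1)) ∧
    ((u0 b < u b ∨ b < q) →
      n - b - (u b + sl n m u b) < n - (b + 1) - (u (b + 1) + sl n m u (b + 1))) := by
  have hV2 := h.V2 b hb (by omega)
  have hV2b := h.V2b b hb (by omega)
  have hV1 := h.V1 (b + 1) hb
  have hV1' := h.V1 b (by omega)
  by_cases hx : m ≤ n - b - u b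
  · have hx' : m ≤ n - (b + 1) - u (b + 1) := by
      rcases hV2 with hV2 | hV2
      · omega
      · omega
    have e1 := sl_eq n m u b hx
    have e2 := sl_eq n m u (b + 1) hx'
    have ha := ss_anti n m u b
    rw [e1] at h2
    rw [e1, e2]
    rcases Nat.lt_or_ge (u0 b) (u b) with hu | hu
    · have h4 := h.V4 b (by omega) hu
      have h5 := ss_ge n m u b
      have hs := ss_strict n m u b hx (by omega)
      have hV2' : n - b - u b ≤ n - (b + 1) - u (b + 1) := by
        rcases hV2 with hV2 | hV2
        · exact hV2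
        · omega
      refine ⟨Or.inl (by omega), fun h6 => ?_, fun _ => by omega⟩
      omega
    · have hu' : u b = u0 b := by omega
      have hu1 := hV2b hu'
      refine ⟨?_, ?_, ?_⟩
      · rcases Nat.eq_zero_or_pos (ss n m u b) with h0 | h0
        · rcases Nat.lt_or_ge b p with hp | hp
          · have := hB.le hp
            left
            omega
          · have h7 := hB.B1 b hp
            have h8 := hB.B1 (b + 1) (by omega)
            right
            omega
        · have hs := ss_strict n m u b hx h0
          have := hB.drop b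
          left
          omega
      · intro h6
        omega
      · intro h6
        have hq : b < q := by omega
        have := hB.lt hq
        omega
  · push Not at hx
    have hV2' : n - b - u b ≤ n - (b + 1) - u (b + 1) := by
      rcases hV2 with hV2 | hV2
      · exact hV2
      · omega
    have hs := (InvF.short_strict hB h hμ hm (by omega) hx h2).1
    have hle : sl n m u (b + 1) ≤
        ((Finset.range (n - b - u b)).filter (fun γ => γ + hh n u b γ + 1 < m)).card +
          (n - (b + 1) - u (b + 1) - (n - b - u b)) := by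
      have hsub : (Finset.range (min (n - (b + 1) - u (b + 1)) m)).filter
          (fun γ => hh n u (b + 1) γ + γ < m) ⊆
          (Finset.range (n - b - u b)).filter (fun γ => γ + hh n u b γ + 1 < m) ∪
            Finset.Ico (n - b - u b) (n - (b + 1) - u (b + 1)) := by
        intro γ hγ
        rw [Finset.mem_filter, Finset.mem_range, lt_min_iff] at hγ
        rw [Finset.mem_union, Finset.mem_filter, Finset.mem_range, Finset.mem_Ico]
        have h6 := hh_succ n u b γ
        by_cases hγx : γ < n - b - u b
        · rw [if_pos hγx] at h6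
          left
          omega
        · right
          omega
      calc sl n m u (b + 1) ≤ _ := Finset.card_le_card hsub
        _ ≤ _ := Finset.card_union_le _ _
        _ = _ := by rw [Nat.card_Ico]
    refine ⟨Or.inl (by omega), fun h6 => ?_, fun _ => by omega⟩
    omega

lemma InvF.ss_bound {n m1 p q m : ℕ} {u0 u : ℕ → ℕ} {μ : ℕ} (hB : Base n p q (m1 + 1) u0)
    (h : InvF n m1 p q u0 u μ) (hμ : μ ≤ m) (hm : m ≤ m1) :
    ∀ b, b < n - m1 → ss n m u b = 0 ∨ ss n m u b + hh n (fun b => u b + sl n m u b) b 0 ≤ m := by
  intro b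
  induction b with
  | zero =>
    intro _
    right
    rw [ss_zero]
    simp [hh]
  | succ b ih =>
    intro hb
    have hI := ih (by omega)
    have h6 := hh_succ n (fun b => u b + sl n m u b) b 0
    have ha := ss_anti n m u b
    rcases Nat.eq_zero_or_pos (ss n m u b) with h0 | h0
    · left
      omega
    right
    have hI' : ss n m u b + hh n (fun b => u b + sl n m u b) b 0 ≤ m := by omega
    by_cases hsv : 0 < n - b - (u b + sl n m u b)
    · rw [if_pos hsv] at h6
      have hs : ss n m u (b + 1) + 1 ≤ ss n m u b := by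
        by_cases hx : m ≤ n - b - u b
        · exact ss_strict n m u b hx h0
        · exact (InvF.short_strict hB h hμ hm (by omega) (by omega) (by omega)).2
      omega
    · rw [if_neg hsv] at h6
      omega

end Pool.Agent.Helper28.HG
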