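import Pool.Agent.Helper28.HG.E3

/-!
# Project HG: the invariant persists (block HG-E3b)

Adapt `InvE.step` (HH/StE3b.lean).  `u' = u + sl`.  V1: `sl ≤ r` (`sl_le`).  V2, V2b: `InvF.drop`.  V3: `b1'` = the least `b ≥ q`
with `u b = u0 b` or `n - m1 ≤ b`.  For `b < b1'`: `b < q` or `u0 b < u b`, `drop` (third claim).  For `b ≥ b1'`, `b < n - m1`:
`u b = u0 b` by V2b and induction (a row `b ≥ q` with `u b = u0 b` is nonempty by `Base.long`), so
`u' b = u0 b + sl b`, `sl b ≤ ss b` (`sl_le`), `ss_bound`.  V4: if `u0 b < u b`: V4 and `hh' ≤ hh`; if `u b = u0 b`: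
`1 ≤ sl b ≤ ss b`, `ss_bound`.
`InvF.init`: the initial state `u = u0`, `μ = 0`.  V2: `b < p`: `Base.le`; `p ≤ b`: second alternative.  V3: `b1 = q`,
`Base.lt`.
-/

set_option autoImplicit false

namespace Pool.Agent.Helper28.HG

open Pool.Agent.Helper28.HH

theorem InvF.step {n m1 p q m : ℕ} {u0 u : ℕ → ℕ} {μ : ℕ} (hB : Base n p q (m1 + 1) u0)
    (h : InvF n m1 p q u0 u μ) (hμ : μ ≤ m) (hm : m ≤ m1) :
    InvF n m1 p q u0 (fun b => u b + sl n m u b) m := by
  classical
  have hhle : ∀ b, hh n (fun b => u b + sl n m u b) b 0 ≤ hh n u b 0 := by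
    intro b
    unfold hh
    refine Finset.card_le_card (Finset.monotone_filter_right _ ?_)
    intro b' hb'
    simp only at hb' ⊢
    omega
  have hz : ∀ b c, q ≤ b → u b = u0 b → b + c < n - m1 → u (b + c) = u0 (b + c) := by
    intro b c hq hb
    induction c with
    | zero => intro _; exact hb
    | succ c ih =>
      intro hc
      have h1 := ih (by omega)
      have h4 := hB.long (b := b + c) (by omega) (by omega)
      exact h.V2b (b + c) (by omega) (by omega) h1
  refine ⟨?_, ?_, ?_, ?_, ?_⟩
  · intro b hb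
    have h1 := h.V1 b hb
    have h2 := (sl_le n m u b).1
    show u0 b ≤ u b + sl n m u b ∧ u b + sl n m u b ≤ n - b
    omega
  · intro b hb h1
    have h1' : u b + sl n m u b < n - b := h1
    exact (InvF.drop hB h hμ hm hb (by omega)).1
  · intro b hb h1 h2
    have h1' : u b + sl n m u b < n - b := h1
    exact (InvF.drop hB h hμ hm hb (by omega)).2.1 h2
  · have hex : ∃ b, q ≤ b ∧ (u b = u0 b ∨ n - m1 ≤ b) :=
      ⟨max q (n - m1), le_max_left _ _, Or.inr (le_max_right _ _)⟩
    refine ⟨Nat.find hex, (Nat.find_spec hex).1, ?_, ?_⟩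
    · intro b hb hb1 h1
      have h1' : u b + sl n m u b < n - b := h1
      have h2 := Nat.find_min hex hb
      have hV := h.V1 b (by omega)
      refine (InvF.drop hB h hμ hm hb1 (by omega)).2.2 ?_
      by_cases hq : q ≤ b
      · left
        by_contra hc
        exact h2 ⟨hq, Or.inl (by omega)⟩
      · right
        omega
    · intro b hb hbw
      obtain ⟨hq, h2⟩ := Nat.find_spec hex
      have h3 : u (Nat.find hex) = u0 (Nat.find hex) := by
        rcases h2 with h2 | h2
        · exact h2
        · omega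
      have h4 : u b = u0 b := by
        have h5 := hz (Nat.find hex) (b - Nat.find hex) hq h3 (by omega)
        have h6 : Nat.find hex + (b - Nat.find hex) = b := by omega
        rwa [h6] at h5
      have h7 := (sl_le n m u b).2.2
      rcases InvF.ss_bound hB h hμ hm b hbw with h8 | h8
      · left
        show u b + sl n m u b = u0 b
        omega
      · right
        show u b + sl n m u b + hh n (fun b => u b + sl n m u b) b 0 ≤ m + u0 b
        omega
  · intro b hb h1
    have h1' : u0 b < u b + sl n m u b := h1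
    have h7 := (sl_le n m u b).2.2
    have hV := h.V1 b hb
    by_cases h2 : u0 b < u b
    · have h3 := h.V4 b hb h2
      have h4 := hhle b
      omega
    · rcases InvF.ss_bound hB h hμ hm b hb with h8 | h8
      · omega
      · omega

theorem InvF.init {n m1 p q : ℕ} {u0 : ℕ → ℕ} (hB : Base n p q (m1 + 1) u0) :
    InvF n m1 p q u0 u0 0 := by
  refine ⟨?_, ?_, ?_, ?_, ?_⟩
  · intro b hb
    exact ⟨le_rfl, hB.cap b⟩
  · intro b hb h1
    rcases Nat.lt_or_ge b p with hp | hp
    · exact Or.inl (hB.le hp)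
    · exact Or.inr ⟨hp, hB.B1 b hp, hB.B1 (b + 1) (by omega)⟩
  · intro b hb h1 h2
    rfl
  · refine ⟨q, le_rfl, ?_, ?_⟩
    · intro b hb hb1 h1
      exact hB.lt hb
    · intro b hb hb1
      exact Or.inl rfl
  · intro b hb h1
    exact absurd h1 (lt_irrefl _)

end Pool.Agent.Helper28.HG
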