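import Pool.Agent.Helper28.HG.Base
import Pool.Agent.Helper28.HH.Top

/-!
# Project HG: top corner on a diagram with a base (block HG-TOP)

Adapt `top_corner` of HH/Top.lean: `D' = (DS n u0).filter (fun e => n - m ≤ e.2)`; in the rows `b ≥ n - m` `u0 b = 0`, so the
membership is `e.1 + e.2 < n ∧ n - m ≤ e.2` as there; the rest `DS n u0 \ D'` is `DL n (n - m) u0`.
-/

set_option autoImplicit false

namespace Pool.Agent.Helper28.HG

open Pool.Agent.Helper28.HH

theorem top_base {n m : ℕ} {u0 : ℕ → ℕ} (hm : m ≤ n) (h0 : ∀ b, n - m ≤ b → u0 b = 0) {ms : List ℕ}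
    (hI : InjD (DL n (n - m) u0) ms) : InjD (DS n u0) (m :: ms) := by
  classical
  set D' : Finset (ℕ × ℕ) := (DS n u0).filter (fun e => n - m ≤ e.2) with hD'
  have hmem : ∀ e : ℕ × ℕ, e ∈ D' ↔ e.1 + e.2 < n ∧ n - m ≤ e.2 := by
    intro e
    rw [hD', Finset.mem_filter, mem_DS]
    constructor
    · rintro ⟨⟨h1, _⟩, h2⟩
      exact ⟨h1, h2⟩
    · rintro ⟨h1, h2⟩
      exact ⟨⟨h1, by rw [h0 _ h2]; exact Nat.zero_le _⟩, h2⟩
  have hdiff : DS n u0 \ D' = DL n (n - m) u0 := by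
    ext e
    rw [Finset.mem_sdiff, hmem, mem_DS, mem_DL]
    constructor
    · rintro ⟨⟨h1, h2⟩, h3⟩
      refine ⟨⟨h1, h2⟩, ?_⟩
      by_contra h4
      exact h3 ⟨h1, by omega⟩
    · rintro ⟨⟨h1, h2⟩, h3⟩
      refine ⟨⟨h1, h2⟩, ?_⟩
      rintro ⟨_, h4⟩
      omega
  have key := triangulate (m := m) D' (fun e => e.2) (fun _ => ∅) (fun _ _ _ => le_refl _) (by
    intro e0 he0
    rw [hmem] at he0
    obtain ⟨a0, b0⟩ := e0
    obtain ⟨h1, h2⟩ := he0
    dsimp only at h1 h2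
    set P : ℕ × ℕ → ℝ := fun e => ∏ β ∈ Finset.Ico (n - m) b0, ((e.2 : ℝ) - (β : ℝ)) with hP
    set Q : ℕ × ℕ → ℝ := fun e => ∏ a ∈ (Finset.range (n - b0)).erase a0, ((e.1 : ℝ) - (a : ℝ)) with hQ
    have hPm : P ∈ PF ((Finset.Ico (n - m) b0).card + 1) :=
      PF_prod _ (fun (β : ℕ) (e : ℕ × ℕ) => (e.2 : ℝ) - (β : ℝ)) fun β _ => snd_sub_mem _
    have hQm : Q ∈ PF (((Finset.range (n - b0)).erase a0).card + 1) :=
      PF_prod _ (fun (a : ℕ) (e : ℕ × ℕ) => (e.1 : ℝ) - (a : ℝ)) fun a _ => fst_sub_mem _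
    have hPQ := PF_mul hPm hQm
    have hcard : (Finset.Ico (n - m) b0).card + ((Finset.range (n - b0)).erase a0).card + 1 = m := by
      rw [Nat.card_Ico, Finset.card_erase_of_mem (Finset.mem_range.2 (by omega)), Finset.card_range]
      omega
    rw [hcard] at hPQ
    have hP0 : P (a0, b0) ≠ 0 := by
      rw [hP]
      refine Finset.prod_ne_zero_iff.2 fun β hβ => ?_
      rw [Finset.mem_Ico] at hβ
      rw [sub_ne_zero]
      intro h
      have h3 : b0 = β := by exact_mod_cast h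
      omega
    have hQ0 : Q (a0, b0) ≠ 0 := by
      rw [hQ]
      refine Finset.prod_ne_zero_iff.2 fun a ha => ?_
      rw [sub_ne_zero]
      intro h
      have h3 : a0 = a := by exact_mod_cast h
      exact (Finset.ne_of_mem_erase ha) h3.symm
    refine ⟨(P (a0, b0) * Q (a0, b0))⁻¹ • (P * Q), Submodule.smul_mem _ _ hPQ, ?_, ?_, ?_⟩
    · rw [Pi.smul_apply, Pi.mul_apply, smul_eq_mul]
      exact inv_mul_cancel₀ (mul_ne_zero hP0 hQ0)
    · intro e he hne hle
      dsimp only at hle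
      rw [hmem] at he
      rw [Pi.smul_apply, Pi.mul_apply, smul_eq_mul]
      rcases Nat.lt_or_ge e.2 b0 with h3 | h3
      · have h4 : P e = 0 := by
          rw [hP]
          exact Finset.prod_eq_zero (Finset.mem_Ico.2 ⟨he.2, h3⟩) (sub_self _)
        rw [h4, zero_mul, mul_zero]
      · have h5 : e.2 = b0 := le_antisymm hle h3
        have h4 : Q e = 0 := by
          rw [hQ]
          refine Finset.prod_eq_zero (i := e.1) (Finset.mem_erase.2 ⟨?_, Finset.mem_range.2 (by omega)⟩)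
            (sub_self _)
          intro h6
          exact hne (Prod.ext h6 h5)
        rw [h4, mul_zero, mul_zero]
    · intro e he
      exact absurd he (Set.notMem_empty _))
  refine one_point_desc (D' := D') (Finset.filter_subset _ _) ?_ (by rw [hdiff]; exact hI)
  intro e0 he0
  obtain ⟨f, h1, h2, h3, -⟩ := key e0 he0
  refine ⟨f, h1, h2, h3, ?_⟩
  intro e he hlex
  exfalso
  rw [hdiff, mem_DL] at he
  rw [hmem] at he0
  exact hlex (Or.inl (by omega))


end Pool.Agent.Helper28.HG
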