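import Pool.Agent.Helper28.HG.E2b
import Pool.Agent.Helper28.HG.E3b
import Pool.Agent.Helper28.HG.Top
import Pool.Agent.Helper28.HH.StE

/-!
# Project HG: counting, emptiness on the diagram of a base (block HG-E4)

`count`: (final inequality, arithmetic of the base).  `L b = n - b - u0 b`, `w = n - m1`, `i < w`, `1 ≤ L i`.  If `L i = m1 + 1 + y`:
`L (i + t) ≥ L i - t` (`Base.drop`), and `L (w - 1) = m1 + 1` (`p ≤ w - 1` by B5) gives `i + y ≤ w - 1`, so
`∑_{i ≤ b < w} L b ≥ ∑_{t ≤ y} (m1 + 1 + t)`, and `2 ∑ + m1 (m2 - 1) - (m2 + 1)(m1 + y) ≥ 2 + y (2 m1 + 2 + y - m2) > 0`.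
If `L i ≤ m1`: the term `b = i` alone is enough: `2 L i + m1 (m2-1) > (m2+1)(L i - 1)` (`m2 ≤ m1`; `m2 = 0` by truncation).

`low_rowsF`: induction on `ms` as in HH/StE4.lean, with `ũ b = u b - u0 b` (natural subtraction; V1).  `nest` with
`InvF.nested`; the hypothesis `hV` persists by `InvF.tail_le`, `gs_zero`, `gs_succ`.  At the end (`ms = []`) if `DL n (n-m1) u` is
not empty let `i` be the least row with `u i < n - i`: for `b < i` `ũ b = L b`, `ũ i ≤ L i - 1`, so with
`card (DS n u0) = ∑_{b<i} L b + ∑_{i ≤ b < w} L b + T m1` (`card_DS`; rows `b ≥ w` have `n - b` elements, `w ≥ p`) the hypotheses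
contradict `count`.
`thmF`: `top_base`, sort `ms`, `low_rowsF` with `u = u0`, `μ = S = 0`, `InvF.init` (see `thmE` in HH/StE.lean).
-/

set_option autoImplicit false

namespace Pool.Agent.Helper28.HG

open Pool.Agent.Helper28.HH

/-- the last low row is full of length `m1 + 1` -/
private lemma last_row {n m1 p q : ℕ} {u0 : ℕ → ℕ} (hB : Base n p q (m1 + 1) u0) (h1 : m1 < n) :
    n - (n - m1 - 1) - u0 (n - m1 - 1) = m1 + 1 := by
  have h2 : p ≤ n - m1 - 1 := by
    rcases hB.B5 with h3 | h3
    · omega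
    · omega
  rw [hB.B1 _ h2]
  omega

private lemma drop_add {n p q M : ℕ} {u0 : ℕ → ℕ} (hB : Base n p q M u0) (i t : ℕ) :
    n - i - u0 i ≤ n - (i + t) - u0 (i + t) + t := by
  induction t with
  | zero => simp
  | succ t ih =>
    have h1 := hB.drop (i + t)
    have h2 : i + (t + 1) = i + t + 1 := by omega
    rw [h2]
    omega

/-- sum of a decreasing stretch -/
private lemma sum_desc_le (c y : ℕ) (f : ℕ → ℕ) (hf : ∀ t, t ≤ y → c + y ≤ f t + t) :
    (y + 1) * (2 * c + y) ≤ 2 * ∑ t ∈ Finset.range (y + 1), f t := by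
  have h1 : ∑ t ∈ Finset.range (y + 1), (c + (y - t)) ≤ ∑ t ∈ Finset.range (y + 1), f t := by
    apply Finset.sum_le_sum
    intro t ht
    have h2 := Finset.mem_range.1 ht
    have h3 := hf t (by omega)
    omega
  have h4 : ∀ y : ℕ, 2 * ∑ t ∈ Finset.range (y + 1), (c + (y - t)) = (y + 1) * (2 * c + y) := by
    intro y
    have h5 : ∑ t ∈ Finset.range (y + 1), (c + (y - t)) = ∑ t ∈ Finset.range (y + 1), (c + t) := by
      rw [← Finset.sum_range_reflect]
      apply Finset.sum_congr rfl
      intro t ht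
      have h6 := Finset.mem_range.1 ht
      omega
    rw [h5]
    clear h5 h1 hf
    induction y with
    | zero => simp
    | succ y ih =>
      rw [Finset.sum_range_succ, mul_add, ih]
      ring
  rw [← h4]
  omega

theorem count {n m1 m2 p q i : ℕ} {u0 : ℕ → ℕ} (hB : Base n p q (m1 + 1) u0) (h21 : m2 ≤ m1)
    (hi : i < n - m1) (h1 : 1 ≤ n - i - u0 i) :
    (m2 + 1) * (n - i - u0 i - 1) <
      2 * ∑ b ∈ Finset.Ico i (n - m1), (n - b - u0 b) + m1 * (m2 - 1) := by
  have hmn : m1 < n := by omega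
  rcases Nat.lt_or_ge m1 (n - i - u0 i) with h2 | h2
  · obtain ⟨y, hy⟩ : ∃ y, n - i - u0 i = m1 + 1 + y := ⟨n - i - u0 i - (m1 + 1), by omega⟩
    have h3 := last_row hB hmn
    have h4 : i + y + 1 ≤ n - m1 := by
      have h5 := drop_add hB i (n - m1 - 1 - i)
      have h6 : i + (n - m1 - 1 - i) = n - m1 - 1 := by omega
      rw [h6, h3, hy] at h5
      omega
    have h7 : ∑ t ∈ Finset.range (y + 1), (n - (i + t) - u0 (i + t)) ≤
        ∑ b ∈ Finset.Ico i (n - m1), (n - b - u0 b) := by
      rw [Finset.sum_Ico_eq_sum_range]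
      apply Finset.sum_le_sum_of_subset
      intro t ht
      rw [Finset.mem_range] at ht ⊢
      omega
    have h8 := sum_desc_le (m1 + 1) y (fun t => n - (i + t) - u0 (i + t)) (by
      intro t _
      have h9 := drop_add hB i t
      rw [hy] at h9
      exact h9)
    have h10 : m1 * m2 ≤ m1 * (m2 - 1) + m1 := by
      have h11 : m2 ≤ (m2 - 1) + 1 := by omega
      calc m1 * m2 ≤ m1 * ((m2 - 1) + 1) := Nat.mul_le_mul_left _ h11
        _ = _ := by ring
    have h12 : y * m2 ≤ y * m1 := Nat.mul_le_mul_left _ h21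
    have h13 : n - i - u0 i - 1 = m1 + y := by omega
    rw [h13]
    nlinarith
  · have h3 : n - i - u0 i ≤ ∑ b ∈ Finset.Ico i (n - m1), (n - b - u0 b) :=
      Finset.single_le_sum (f := fun b => n - b - u0 b) (fun _ _ => Nat.zero_le _)
        (Finset.mem_Ico.2 ⟨le_rfl, hi⟩)
    obtain ⟨l, hl⟩ : ∃ l, n - i - u0 i = l + 1 := ⟨n - i - u0 i - 1, by omega⟩
    rw [hl] at h2 h3
    rw [hl, Nat.add_sub_cancel]
    rcases Nat.eq_zero_or_pos m2 with h4 | h4
    · subst h4
      simp only [Nat.zero_sub, Nat.mul_zero, Nat.add_zero, Nat.zero_add, Nat.one_mul]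
      omega
    · obtain ⟨k, rfl⟩ : ∃ k, m2 = k + 1 := ⟨m2 - 1, by omega⟩
      rw [Nat.add_sub_cancel]
      have h5 : (l + 1) * k ≤ m1 * k := Nat.mul_le_mul_right _ h2
      nlinarith

theorem low_rowsF {n m1 m2 p q : ℕ} {u0 : ℕ → ℕ} (hB : Base n p q (m1 + 1) u0) (h21 : m2 ≤ m1)
    (h1 : m1 < n) : ∀ ms : List ℕ, ms.Pairwise (· ≤ ·) → (∀ m ∈ ms, m ≤ m2) → ∀ (u : ℕ → ℕ) (μ S : ℕ),
    InvF n m1 p q u0 u μ → (∀ m ∈ ms, μ ≤ m) →
    (∀ i, i < n - m1 → u i < n - i →
      2 * S ≤ 2 * ∑ b ∈ Finset.range i, (u b - u0 b) + (m2 + 1) * (u i - u0 i)) →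
    2 * (DS n u0).card + m1 * (m2 - 1) ≤ 2 * (T m1 + S + (ms.map T).sum) →
    InjD (DL n (n - m1) u) ms := by
  intro ms
  induction ms with
  | nil =>
    intro _ _ u μ S h _ hV hS
    have hempty : ∀ e, e ∉ DL n (n - m1) u := by
      intro e he
      have hex : ∃ i, i < n - m1 ∧ u i < n - i := by
        rw [mem_DL] at he
        exact ⟨e.2, he.2, by omega⟩
      classical
      obtain ⟨h2, h3⟩ := Nat.find_spec hex
      have hlow : ∀ b ∈ Finset.range (Nat.find hex), u b - u0 b = n - b - u0 b := by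
        intro b hb
        have hb' := Finset.mem_range.mp hb
        have h4 := Nat.find_min hex hb'
        have h5 := (h.V1 b (by omega)).2
        have h6 : u b = n - b := by omega
        rw [h6]
      have h4 := hV _ h2 h3
      rw [Finset.sum_congr rfl hlow] at h4
      revert h2 h3 h4
      generalize Nat.find hex = i
      intro h2 h3 h4
      have h5 := h.V1 i h2
      have h6 := count hB h21 h2 (by omega)
      have h7 : u i - u0 i ≤ n - i - u0 i - 1 := by omega
      have h8 := Nat.mul_le_mul_left (m2 + 1) h7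
      have h9 : ∑ b ∈ Finset.Ico (n - m1) n, (n - b - u0 b) = T m1 := by
        have h10 : ∑ b ∈ Finset.Ico (n - m1) n, (n - b - u0 b) =
            ∑ b ∈ Finset.Ico (n - m1) n, (n - b) := by
          apply Finset.sum_congr rfl
          intro b hb
          have hb' := Finset.mem_Ico.1 hb
          have h11 : p ≤ b := by
            rcases hB.B5 with h12 | h12
            · omega
            · omega
          rw [hB.B1 b h11]
          rfl
        rw [h10, sta1_sum_tail]
        congr 1
        omega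
      have h10 := Finset.sum_range_add_sum_Ico (fun b => n - b - u0 b) (show i ≤ n - m1 by omega)
      have h11 := Finset.sum_range_add_sum_Ico (fun b => n - b - u0 b) (show n - m1 ≤ n by omega)
      have h12 := card_DS n u0
      simp only [List.map_nil, List.sum_nil, Nat.add_zero] at hS
      omega
    exact ⟨[], rfl, fun c _ e he => absurd he (hempty e)⟩
  | cons m ms ih =>
    intro hp hle u μ S h hμ hV hS
    rw [List.pairwise_cons] at hp
    have hm2 : m ≤ m2 := hle m List.mem_cons_self
    have hm : m ≤ m1 := hm2.trans h21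
    have hμm : μ ≤ m := hμ m List.mem_cons_self
    refine nest (fun b b' hb hb' => h.nested hm b b' hb hb') ?_
    refine ih hp.2 (fun m' hm' => hle m' (List.mem_cons_of_mem _ hm')) _ m (S + T m)
      (InvF.step hB h hμm hm) (fun m' hm' => hp.1 m' hm') ?_ ?_
    · intro i hi h2
      have h3 : sl n m u i < n - i - u i := by omega
      have h4 := hV i hi (by omega)
      have h5 := InvF.tail_le hB h hμm hm hi h3
      have h6 : ∀ j, ∑ b ∈ Finset.range j, sl n m u b + gs n m u j = T m := by
        intro j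
        induction j with
        | zero => simp [gs_zero]
        | succ j ihj =>
          have h7 := gs_succ n m u j
          rw [Finset.sum_range_succ]
          omega
      have h7 := h6 i
      have h8 : (m + 1) * sl n m u i ≤ (m2 + 1) * sl n m u i := Nat.mul_le_mul_right _ (by omega)
      have h9 : ∑ b ∈ Finset.range i, (u b + sl n m u b - u0 b) =
          ∑ b ∈ Finset.range i, (u b - u0 b) + ∑ b ∈ Finset.range i, sl n m u b := by
        rw [← Finset.sum_add_distrib]
        apply Finset.sum_congr rfl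
        intro b hb
        have hb' := Finset.mem_range.1 hb
        have h10 := (h.V1 b (by omega)).1
        omega
      have h10 : u i + sl n m u i - u0 i = (u i - u0 i) + sl n m u i := by
        have h11 := (h.V1 i hi).1
        omega
      show 2 * (S + T m) ≤ 2 * ∑ b ∈ Finset.range i, (u b + sl n m u b - u0 b) +
        (m2 + 1) * (u i + sl n m u i - u0 i)
      rw [h9, h10, mul_add (m2 + 1)]
      omega
    · rw [List.map_cons, List.sum_cons] at hS
      omega

theorem thmF {n m1 m2 p q : ℕ} {u0 : ℕ → ℕ} (hB : Base n p q (m1 + 1) u0) {ms : List ℕ} (h1 : m1 < n)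
    (h21 : m2 ≤ m1) (hms : ∀ m ∈ ms, m ≤ m2)
    (h : 2 * (DS n u0).card + m1 * (m2 - 1) ≤ 2 * (T m1 + (ms.map T).sum)) :
    InjD (DS n u0) (m1 :: ms) := by
  refine top_base h1.le (fun b hb => ?_) ?_
  · have h11 : p ≤ b := by
      rcases hB.B5 with h12 | h12
      · omega
      · omega
    exact hB.B1 b h11
  · have hp : (ms.insertionSort (· ≤ ·)).Perm ms := List.perm_insertionSort _ _
    have key := low_rowsF hB h21 h1 (ms.insertionSort (· ≤ ·))
      (List.pairwise_insertionSort _ _) (fun m hm => hms m (hp.mem_iff.1 hm)) u0 0 0 (InvF.init hB)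
      (fun m _ => Nat.zero_le m) (fun i _ _ => by simp)
      (by rw [(hp.map T).sum_eq]; simpa using h)
    exact key.perm hp

end Pool.Agent.Helper28.HG
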