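import Pool.Agent.Helper28.HG.Base
import Pool.Agent.Helper28.HH.Row

/-!
# Project HG: the special points (block HG-SP)

`us l b = ∑_{m ∈ l} (m - b)`.
`sp_good`, `sp_inj`: induction on `l` generalizing `ms`: for `l = m :: l'`, `row_good` (`row_inj`) with `i = j = 0`,
`u = us l'`, `s b = m - b` gives the diagram `DS n (us l')` with `m :: ms`, then the induction hypothesis and a
permutation.  Capacity: for `b < m`: `(m - b) + us l' b + b ≤ m + l'.sum = l.sum ≤ n` (`us l' b ≤ l'.sum`); for `m ≤ b` `s b = 0`.
`row_inj`'s `hcap` is the same.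
`card_us`: `card_DS`, or by induction (`∑_{b<n} (m - b) = T m` for `m ≤ n`).
`base_us`: `p = x`, `q = y`.  For `b < y` both `x - b` and `y - b` drop by one; for `y ≤ b < x` the other terms vanish:
`us b = x - b`.
-/

set_option autoImplicit false

namespace Pool.Agent.Helper28.HG

open Pool.Agent.Helper28.HH

/-- what the special points `l` remove from the row `b` -/
def us (l : List ℕ) (b : ℕ) : ℕ := (l.map (fun m => m - b)).sum

private theorem us_nil92 (b : ℕ) : us [] b = 0 := by
  unfold us
  simp

private theorem us_cons92 (m : ℕ) (l : List ℕ) (b : ℕ) : us (m :: l) b = (m - b) + us l b := by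
  unfold us
  rw [List.map_cons, List.sum_cons]

private theorem us_le92 (l : List ℕ) (b : ℕ) : us l b ≤ l.sum := by
  induction l with
  | nil => rw [us_nil92]; exact Nat.zero_le _
  | cons m l ih =>
    rw [us_cons92, List.sum_cons]
    omega

private theorem us_anti92 (l : List ℕ) (b : ℕ) : us l (b + 1) ≤ us l b := by
  induction l with
  | nil => rw [us_nil92, us_nil92]
  | cons m l ih =>
    rw [us_cons92, us_cons92]
    omega

private theorem us_zero92 (l : List ℕ) (b : ℕ) (h : ∀ m ∈ l, m ≤ b) : us l b = 0 := by
  induction l with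
  | nil => exact us_nil92 b
  | cons m l ih =>
    rw [us_cons92, ih fun k hk => h k (List.mem_cons_of_mem _ hk)]
    have := h m List.mem_cons_self
    omega

/-- capacity of a row -/
private theorem us_cap92 {n : ℕ} (l : List ℕ) (b : ℕ) (h : l.sum ≤ n) : us l b ≤ n - b := by
  induction l with
  | nil => rw [us_nil92]; exact Nat.zero_le _
  | cons m l ih =>
    rw [us_cons92]
    rw [List.sum_cons] at h
    have h1 := ih (by omega)
    have h2 := us_le92 l b
    rcases Nat.lt_or_ge b m with hb | hb
    · omega
    · omega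

private theorem us_eq92 (m : ℕ) (l : List ℕ) : us (m :: l) = fun b => us l b + (m - b) := by
  funext b
  rw [us_cons92, Nat.add_comm]

private theorem sum_T92 (m : ℕ) : ∑ b ∈ Finset.range m, (m - b) = T m := by
  induction m with
  | zero => simp
  | succ m ih =>
    rw [Finset.sum_range_succ', T_succ, ← ih]
    have h1 : ∑ k ∈ Finset.range m, (m + 1 - (k + 1)) = ∑ b ∈ Finset.range m, (m - b) :=
      Finset.sum_congr rfl fun b _ => by omega
    rw [h1]
    simp

private theorem sum_T92' {m n : ℕ} (h : m ≤ n) : ∑ b ∈ Finset.range n, (m - b) = T m := by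
  rw [← sum_T92 m]
  symm
  refine Finset.sum_subset (Finset.range_mono h) fun b _ hb => ?_
  rw [Finset.mem_range] at hb
  omega

private theorem step_good92 {n m : ℕ} {l ms : List ℕ} (hl : m + l.sum ≤ n)
    (h : GoodD (DS n (us (m :: l))) ms) : GoodD (DS n (us l)) (m :: ms) := by
  rw [us_eq92] at h
  refine row_good (i := 0) (j := 0) (s := fun b => m - b) le_rfl (Nat.zero_le _) ?_ ?_ ?_ ?_ ?_ ?_
    ?_ ?_ ?_ h
  · intro b hb; omega
  · intro b _ hb; omega
  · intro b _
    show m - b ≤ n - b - us l b
    have h2 := us_le92 l b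
    omega
  · intro b hb; omega
  · intro b hb
    show m - b = 0
    omega
  · intro b _ hb
    show 1 ≤ m - b ∧ m - b ≤ m
    omega
  · intro b _ hb
    show m - (b + 1) + 1 ≤ m - b
    omega
  · intro b hb c hc hbc
    rw [Set.mem_Ico] at hb hc
    have h3 : m - b = m - c := hbc
    omega
  · rw [Nat.zero_add, ← Finset.range_eq_Ico]
    exact sum_T92 m

private theorem step_inj92 {n m : ℕ} {l ms : List ℕ} (hl : m + l.sum ≤ n)
    (h : InjD (DS n (us (m :: l))) ms) : InjD (DS n (us l)) (m :: ms) := by
  rw [us_eq92] at h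
  refine row_inj (i := 0) (j := 0) (s := fun b => m - b) le_rfl (Nat.zero_le _) ?_ ?_ ?_ ?_ ?_ ?_
    ?_ ?_ h
  · intro b hb; omega
  · intro b _ hb; omega
  · intro b _
    show m - b ≤ n - b - us l b
    have h2 := us_le92 l b
    omega
  · intro b hb; omega
  · intro b hb
    show m - b = 0
    omega
  · intro b _ hb
    show 1 ≤ m - b ∧ m - b ≤ m
    omega
  · intro b _ hb
    show m - (b + 1) + 1 ≤ m - b
    omega
  · intro b hb c hc hbc
    rw [Set.mem_Ico] at hb hc
    have h3 : m - b = m - c := hbc
    omega

theorem sp_good {n : ℕ} {l ms : List ℕ} (hl : l.sum ≤ n) (h : GoodD (DS n (us l)) ms) :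
    GoodD (DS n (fun _ => 0)) (l ++ ms) := by
  induction l generalizing ms with
  | nil =>
    have h1 : us [] = fun _ => 0 := by
      funext b
      exact us_nil92 b
    rw [h1] at h
    exact h
  | cons m l ih =>
    rw [List.sum_cons] at hl
    have h1 := ih (by omega) (step_good92 hl h)
    exact h1.perm List.perm_middle

theorem sp_inj {n : ℕ} {l ms : List ℕ} (hl : l.sum ≤ n) (h : InjD (DS n (us l)) ms) :
    InjD (DS n (fun _ => 0)) (l ++ ms) := by
  induction l generalizing ms with
  | nil =>
    have h1 : us [] = fun _ => 0 := by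
      funext b
      exact us_nil92 b
    rw [h1] at h
    exact h
  | cons m l ih =>
    rw [List.sum_cons] at hl
    have h1 := ih (by omega) (step_inj92 hl h)
    exact h1.perm List.perm_middle

theorem card_us {n : ℕ} {l : List ℕ} (hl : l.sum ≤ n) : (DS n (us l)).card + (l.map T).sum = T n := by
  have h1 : ∑ b ∈ Finset.range n, us l b = (l.map T).sum := by
    induction l with
    | nil =>
      rw [Finset.sum_congr rfl fun b _ => us_nil92 b]
      simp
    | cons m l ih =>
      rw [List.sum_cons] at hl
      rw [Finset.sum_congr rfl fun b _ => us_cons92 m l b, Finset.sum_add_distrib,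
        ih (by omega), sum_T92' (by omega), List.map_cons, List.sum_cons]
  rw [card_DS, ← h1, ← Finset.sum_add_distrib, ← sum_T92 n]
  refine Finset.sum_congr rfl fun b _ => ?_
  have := us_cap92 l b hl
  omega

theorem base_us {n x y M : ℕ} {l : List ℕ} (hyx : y ≤ x) (hl : ∀ m ∈ l, m ≤ y)
    (hs : x + y + l.sum ≤ n) (hM : x + M ≤ n) : Base n x y M (us (x :: y :: l)) := by
  have he : ∀ b, us (x :: y :: l) b = (x - b) + ((y - b) + us l b) := fun b => by
    rw [us_cons92, us_cons92]
  refine ⟨?_, ?_, ?_, ?_, ?_, Or.inr hM, hyx⟩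
  · intro b hb
    rw [he]
    have := us_le92 l b
    omega
  · intro b hb
    rw [he, us_zero92 l b fun m hm => (hl m hm).trans (hyx.trans hb)]
    omega
  · intro b hb
    rw [he, he]
    have := us_anti92 l b
    omega
  · intro b hb
    rw [he, he]
    have := us_anti92 l b
    omega
  · intro b hb hb'
    rw [he, us_zero92 l b fun m hm => (hl m hm).trans hb]
    omega

end Pool.Agent.Helper28.HG
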