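import Pool.Agent.Helper28.HG.StA
import Pool.Agent.Helper28.HG.Sp
import Pool.Agent.Helper28.HG.E4
import Pool.Agent.Helper28.HH.Fin

/-!
# Project HG: windows after special points over `ℂ` (block HG-FIN)

`A` is a set of special indices containing the indices `i1`, `i2` of the two largest multiplicities.
`windowS`, PROOF: list `x = m i1`, `y = m i2`, `l = ` the multiplicities of `A \ {i1, i2}`; the others `ms` (zeros appended if
there are fewer than two; zeros are dropped at the end, see `drop6` in HH/Fin.lean).  `base_us` with `M = M1` (`x + M1 ≤ x + y ≤ n`),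
`thmG`, `card_us`, `sp_good`, `GoodD.perm`, `FR_of_goodD`, `FR.generic` as in `sharpS` (HH/Fin.lean, which can be copied).
`windowE`, PROOF: `base_us` with `M = m i3 + 1` (`x + m i3 + 1 ≤ x + y + 1 ≤ n = d + 1`), `thmF` (`m i3 < n`), `card_us`, `sp_inj`,
`InjD.perm`, `KR_of_injD`, `KR.generic` as in `sharpE`.
-/

set_option autoImplicit false

namespace Pool.Agent.Helper28.HG

open Pool.Agent.Helper28.HH MvPolynomial

private lemma sum52 {n : ℕ} (m : Fin n → ℕ) :
    ∑ i, ((m i : ℤ) * ((m i : ℤ) + 1)) = 2 * ((((List.ofFn m).map T).sum : ℕ) : ℤ) := by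
  rw [List.map_ofFn, List.sum_ofFn, Nat.cast_sum, Finset.mul_sum]
  refine Finset.sum_congr rfl fun i _ => ?_
  have := two_T (m i)
  simp only [Function.comp_apply]
  exact_mod_cast this.symm

private lemma perm52 {n : ℕ} (m : Fin n → ℕ) {s : Finset (Fin n)} {i : Fin n} (hi : i ∈ s) :
    (s.toList.map m).Perm (m i :: ((s.erase i).toList.map m)) := by
  rw [← Multiset.coe_eq_coe, ← Multiset.cons_coe, ← Multiset.map_coe, ← Multiset.map_coe,
    Finset.coe_toList, Finset.coe_toList, ← Multiset.map_cons, Finset.erase_val,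
    Multiset.cons_erase (show i ∈ s.val from hi)]

private lemma split52 {n : ℕ} (m : Fin n → ℕ) (A : Finset (Fin n)) :
    (List.ofFn m).Perm (A.toList.map m ++ Aᶜ.toList.map m) := by
  rw [← Multiset.coe_eq_coe, ← Fin.univ_val_map, ← Multiset.coe_add, ← Multiset.map_coe,
    ← Multiset.map_coe, Finset.coe_toList, Finset.coe_toList, ← Multiset.map_add]
  congr 1
  have h1 : (A.disjUnion Aᶜ disjoint_compl_right).val = A.val + Aᶜ.val := rfl
  rw [← h1, Finset.disjUnion_eq_union, Finset.union_compl]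

private lemma drop52 {D : Finset (ℕ × ℕ)} {ms : List ℕ} (h : GoodD D (0 :: ms)) : GoodD D ms := by
  obtain ⟨E, hE, hc, ps, hps, hinj⟩ := h
  refine ⟨E, hE, by simpa using hc, ?_⟩
  cases ps with
  | nil => simp at hps
  | cons q ps =>
    simp only [List.map_cons, List.cons.injEq] at hps
    refine ⟨ps, hps.2, fun c hcc => hinj c fun r hr => ?_⟩
    rcases List.mem_cons.mp hr with rfl | hr
    · intro f hf
      have h0 : PF r.1 = ⊥ := by
        rw [hps.1, PF, Submodule.span_eq_bot]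
        rintro _ ⟨i, j, hij, _⟩
        exact absurd hij (Nat.not_lt_zero _)
      rw [h0, Submodule.mem_bot] at hf
      subst hf
      simp
    · exact hcc r hr

/-- the special part: list, sum, bounds, the whole list -/
private lemma spec52 {n : ℕ} {m : Fin n → ℕ} (A : Finset (Fin n)) {i1 i2 : Fin n} (h12 : i1 ≠ i2)
    (hi1 : i1 ∈ A) (hi2 : i2 ∈ A) (h2 : ∀ j, j ≠ i1 → m j ≤ m i2) :
    ∃ l : List ℕ, (∀ x ∈ l, x ≤ m i2) ∧ m i1 + m i2 + l.sum = ∑ i ∈ A, m i ∧
      (List.ofFn m).Perm ((m i1 :: m i2 :: l) ++ Aᶜ.toList.map m) := by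
  refine ⟨((A.erase i1).erase i2).toList.map m, ?_, ?_, ?_⟩
  · intro x hx
    obtain ⟨j, hj, rfl⟩ := List.mem_map.mp hx
    have hj1 := Finset.mem_erase.mp (Finset.mem_of_mem_erase (Finset.mem_toList.mp hj))
    exact h2 j hj1.1
  · have h3 : i2 ∈ A.erase i1 := Finset.mem_erase.mpr ⟨h12.symm, hi2⟩
    rw [Finset.sum_map_toList, ← Finset.add_sum_erase A m hi1, ← Finset.add_sum_erase _ m h3,
      add_assoc]
  · refine (split52 m A).trans (List.Perm.append_right _ ?_)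
    have h3 : i2 ∈ A.erase i1 := Finset.mem_erase.mpr ⟨h12.symm, hi2⟩
    exact (perm52 m hi1).trans (List.Perm.cons _ (perm52 m h3))

theorem windowS {n d : ℕ} {m : Fin n → ℕ} (A : Finset (Fin n)) {i1 i2 : Fin n} (h12 : i1 ≠ i2)
    (hi1 : i1 ∈ A) (hi2 : i2 ∈ A) (h1 : ∀ j, m j ≤ m i1) (h2 : ∀ j, j ≠ i1 → m j ≤ m i2)
    (hA : ∑ i ∈ A, m i ≤ d + 1)
    (h0 : 0 ≤ ((d : ℤ) + 1) * ((d : ℤ) + 2) - ∑ i, ((m i : ℤ) * ((m i : ℤ) + 1)))
    (h : ∀ i j, i ∉ A → j ∉ A → i ≠ j → 1 ≤ m i → 1 ≤ m j →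
      2 * (((m i : ℤ) - 1) * ((m j : ℤ) - 1)) ≤
        ((d : ℤ) + 1) * ((d : ℤ) + 2) - ∑ i, ((m i : ℤ) * ((m i : ℤ) + 1))) :
    ∃ g : MvPolynomial (Fin n × Fin 2) ℂ, g ≠ 0 ∧ ∀ p : Fin n → Fin 2 → ℂ,
      MvPolynomial.eval (fun ij : Fin n × Fin 2 => p ij.1 ij.2) g ≠ 0 → FR d m p := by
  suffices hg : GoodD (DS (d + 1) (fun _ => 0)) (List.ofFn m) by
    obtain ⟨p0, hp0⟩ := FR_of_goodD hg
    exact hp0.generic
  obtain ⟨l, hl, hls, hp⟩ := spec52 (m := m) A h12 hi1 hi2 h2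
  have hs := sum52 m
  have hT := two_T (d + 1)
  have hT' : (2 * (T (d + 1) : ℤ)) = ((d : ℤ) + 1) * ((d : ℤ) + 2) := by
    have : ((2 * T (d + 1) : ℕ) : ℤ) = (((d + 1) * (d + 1 + 1) : ℕ) : ℤ) := by rw [hT]
    push_cast at this ⊢
    linarith
  have hps := (hp.map T).sum_eq
  rw [List.map_append, List.sum_append] at hps
  have hlsum : (m i1 :: m i2 :: l).sum ≤ d + 1 := by
    simp only [List.sum_cons]
    omega
  have hcard := card_us hlsum
  refine GoodD.perm hp.symm (sp_good hlsum ?_)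
  rw [hs, ← hT'] at h0
  set X := ((m i1 :: m i2 :: l).map T).sum with hX
  have h0' : ((List.ofFn m).map T).sum ≤ T (d + 1) := by
    have h3 : (0 : ℤ) ≤ 2 * (T (d + 1) : ℤ) - 2 * ((((List.ofFn m).map T).sum : ℕ) : ℤ) := h0
    have h4 : ((((List.ofFn m).map T).sum : ℕ) : ℤ) ≤ (T (d + 1) : ℤ) := by linarith
    exact_mod_cast h4
  rcases Finset.eq_empty_or_nonempty Aᶜ with he | hne
  · rw [he, Finset.toList_empty, List.map_nil]
    exact GoodD.nil _
  · obtain ⟨j1, hj1, hm1⟩ := Finset.exists_max_image Aᶜ m hne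
    have hj1A : j1 ∉ A := Finset.mem_compl.mp hj1
    have hj1i : j1 ≠ i1 := fun hh => hj1A (hh ▸ hi1)
    have hb1 : m j1 ≤ m i2 := h2 j1 hj1i
    have hB := base_us (n := d + 1) (x := m i1) (y := m i2) (M := m j1) (l := l) (h1 i2) hl
      (by omega) (by omega)
    have hq := perm52 m hj1
    have hqs := (hq.map T).sum_eq
    rw [List.map_cons, List.sum_cons] at hqs
    rcases Finset.eq_empty_or_nonempty (Aᶜ.erase j1) with he2 | hne2
    · rw [he2, Finset.toList_empty, List.map_nil] at hq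
      rw [he2, Finset.toList_empty, List.map_nil, List.map_nil, List.sum_nil] at hqs
      refine GoodD.perm hq.symm (drop52 (GoodD.perm (List.Perm.swap 0 (m j1) [])
        (thmG hB (M1 := m j1) (M2 := 0) (ms := []) (Nat.zero_le _) (by simp) le_rfl ?_)))
      simp only [T_zero, List.map_nil, List.sum_nil, Nat.zero_sub, Nat.mul_zero, Nat.add_zero]
      omega
    · obtain ⟨j2, hj2, hm2⟩ := Finset.exists_max_image (Aᶜ.erase j1) m hne2
      have hj2' := Finset.mem_erase.mp hj2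
      have hj2A : j2 ∉ A := Finset.mem_compl.mp hj2'.2
      have hr := perm52 m hj2
      have hrs := (hr.map T).sum_eq
      rw [List.map_cons, List.sum_cons] at hrs
      refine GoodD.perm (hq.trans (List.Perm.cons _ hr)).symm
        (thmG hB (M1 := m j1) (M2 := m j2) (hm1 j2 hj2'.2) ?_ le_rfl ?_)
      · intro x hx
        obtain ⟨j, hj, rfl⟩ := List.mem_map.mp hx
        exact hm2 j (Finset.mem_of_mem_erase (Finset.mem_toList.mp hj))
      · rcases Nat.eq_zero_or_pos (m j2) with h3 | h3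
        · rw [h3, Nat.zero_sub, Nat.mul_zero]
          rw [h3] at hrs
          omega
        · have h4 : 1 ≤ m j1 := Nat.le_trans h3 (hm1 j2 hj2'.2)
          have h6 := h j1 j2 hj1A hj2A hj2'.1.symm h4 h3
          rw [hs, ← hT'] at h6
          have h7 : (((m j1 - 1) * (m j2 - 1) : ℕ) : ℤ) = ((m j1 : ℤ) - 1) * ((m j2 : ℤ) - 1) := by
            push_cast [Nat.cast_sub h4, Nat.cast_sub (show 1 ≤ m j2 from h3)]
            ring
          rw [← h7] at h6
          have h8 : (m j1 - 1) * (m j2 - 1) + ((List.ofFn m).map T).sum ≤ T (d + 1) := by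
            have h9 : (((m j1 - 1) * (m j2 - 1) : ℕ) : ℤ) + ((((List.ofFn m).map T).sum : ℕ) : ℤ) ≤
                (T (d + 1) : ℤ) := by linarith
            exact_mod_cast h9
          omega

theorem windowE {n d : ℕ} {m : Fin n → ℕ} (A : Finset (Fin n)) {i1 i2 i3 : Fin n} (h12 : i1 ≠ i2)
    (hi1 : i1 ∈ A) (hi2 : i2 ∈ A) (hi3 : i3 ∉ A) (h1 : ∀ j, m j ≤ m i1)
    (h2 : ∀ j, j ≠ i1 → m j ≤ m i2) (h3 : ∀ j, j ∉ A → m j ≤ m i3)
    (hA : ∑ i ∈ A, m i ≤ d + 1) (hA2 : m i1 + m i2 ≤ d)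
    (h0 : ((d : ℤ) + 1) * ((d : ℤ) + 2) ≤ ∑ i, ((m i : ℤ) * ((m i : ℤ) + 1)))
    (h : ∀ j, j ∉ A → j ≠ i3 → 1 ≤ m j → (m i3 : ℤ) * ((m j : ℤ) - 1) ≤
      ∑ i, ((m i : ℤ) * ((m i : ℤ) + 1)) - ((d : ℤ) + 1) * ((d : ℤ) + 2)) :
    ∃ g : MvPolynomial (Fin n × Fin 2) ℂ, g ≠ 0 ∧ ∀ p : Fin n → Fin 2 → ℂ,
      MvPolynomial.eval (fun ij : Fin n × Fin 2 => p ij.1 ij.2) g ≠ 0 → KR d m p := by
  suffices hg : InjD (DS (d + 1) (fun _ => 0)) (List.ofFn m) by
    obtain ⟨p0, hp0⟩ := KR_of_injD hg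
    exact hp0.generic
  obtain ⟨l, hl, hls, hp⟩ := spec52 (m := m) A h12 hi1 hi2 h2
  have hs := sum52 m
  have hT := two_T (d + 1)
  have hT' : (2 * (T (d + 1) : ℤ)) = ((d : ℤ) + 1) * ((d : ℤ) + 2) := by
    have : ((2 * T (d + 1) : ℕ) : ℤ) = (((d + 1) * (d + 1 + 1) : ℕ) : ℤ) := by rw [hT]
    push_cast at this ⊢
    linarith
  have hps := (hp.map T).sum_eq
  rw [List.map_append, List.sum_append] at hps
  have hlsum : (m i1 :: m i2 :: l).sum ≤ d + 1 := by
    simp only [List.sum_cons]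
    omega
  have hcard := card_us hlsum
  refine InjD.perm hp.symm (sp_inj hlsum ?_)
  rw [hs, ← hT'] at h0
  set X := ((m i1 :: m i2 :: l).map T).sum with hX
  have h0' : T (d + 1) ≤ ((List.ofFn m).map T).sum := by
    have h4 : (T (d + 1) : ℤ) ≤ ((((List.ofFn m).map T).sum : ℕ) : ℤ) := by linarith
    exact_mod_cast h4
  have hi3' : i3 ∈ Aᶜ := Finset.mem_compl.mpr hi3
  have hi31 : i3 ≠ i1 := fun hh => hi3 (hh ▸ hi1)
  have hb1 : m i3 ≤ m i2 := h2 i3 hi31
  have hB := base_us (n := d + 1) (x := m i1) (y := m i2) (M := m i3 + 1) (l := l) (h1 i2) hl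
    (by omega) (by omega)
  have hq := perm52 m hi3'
  have hqs := (hq.map T).sum_eq
  rw [List.map_cons, List.sum_cons] at hqs
  refine InjD.perm hq.symm ?_
  rcases Finset.eq_empty_or_nonempty (Aᶜ.erase i3) with he2 | hne2
  · refine thmF hB (m1 := m i3) (m2 := 0) (by omega) (Nat.zero_le _) ?_ ?_
    · intro x hx
      rw [he2, Finset.toList_empty, List.map_nil] at hx
      exact absurd hx List.not_mem_nil
    · rw [Nat.zero_sub, Nat.mul_zero, Nat.add_zero]
      omega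
  · obtain ⟨j2, hj2, hm2⟩ := Finset.exists_max_image (Aᶜ.erase i3) m hne2
    have hj2' := Finset.mem_erase.mp hj2
    have hj2A : j2 ∉ A := Finset.mem_compl.mp hj2'.2
    refine thmF hB (m1 := m i3) (m2 := m j2) (by omega) (h3 j2 hj2A) ?_ ?_
    · intro x hx
      obtain ⟨j, hj, rfl⟩ := List.mem_map.mp hx
      exact hm2 j (Finset.mem_toList.mp hj)
    · rcases Nat.eq_zero_or_pos (m j2) with h5 | h5
      · rw [h5, Nat.zero_sub, Nat.mul_zero, Nat.add_zero]
        omega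
      · have h6 := h j2 hj2A hj2'.1 h5
        rw [hs, ← hT'] at h6
        have h7 : ((m i3 * (m j2 - 1) : ℕ) : ℤ) = (m i3 : ℤ) * ((m j2 : ℤ) - 1) := by
          push_cast [Nat.cast_sub (show 1 ≤ m j2 from h5)]
          ring
        rw [← h7] at h6
        have h8 : m i3 * (m j2 - 1) + 2 * T (d + 1) ≤ 2 * ((List.ofFn m).map T).sum := by
          have h9 : ((m i3 * (m j2 - 1) : ℕ) : ℤ) + 2 * (T (d + 1) : ℤ) ≤
              2 * ((((List.ofFn m).map T).sum : ℕ) : ℤ) := by linarith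
          exact_mod_cast h9
        omega

end Pool.Agent.Helper28.HG
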