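import Pool.Agent.Helper28.HG.Base
import Pool.Agent.Helper28.HH.StE3b

/-!
# Project HG: the general invariant of the emptiness statement

`r b = n - b - u b`, `ũ b = u b - u0 b`, low rows `b < n - m1`.  `Base n p q (m1 + 1) u0` and `m1 < n` give:
for `q ≤ b < n - m1` the full row has `n - b - u0 b ≥ m1 + 1` elements (`Base.long`).
-/

set_option autoImplicit false

namespace Pool.Agent.Helper28.HG

open Pool.Agent.Helper28.HH

structure InvF (n m1 p q : ℕ) (u0 u : ℕ → ℕ) (μ : ℕ) : Prop where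
  V1 : ∀ b, b < n - m1 → u0 b ≤ u b ∧ u b ≤ n - b
  V2 : ∀ b, b + 1 < n - m1 → u b < n - b →
    (n - b - u b ≤ n - (b + 1) - u (b + 1) ∨ (p ≤ b ∧ u b = 0 ∧ u (b + 1) = 0))
  V2b : ∀ b, b + 1 < n - m1 → u b < n - b → u b = u0 b → u (b + 1) = u0 (b + 1)
  V3 : ∃ b1, q ≤ b1 ∧
    (∀ b, b < b1 → b + 1 < n - m1 → u b < n - b → n - b - u b < n - (b + 1) - u (b + 1)) ∧
    (∀ b, b1 ≤ b → b < n - m1 → (u b = u0 b ∨ u b + hh n u b 0 ≤ μ + u0 b))
  V4 : ∀ b, b < n - m1 → u0 b < u b → hh n u b 0 + 1 ≤ μ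

lemma Base.long {n m1 p q : ℕ} {u0 : ℕ → ℕ} (h : Base n p q (m1 + 1) u0) {b : ℕ} (hq : q ≤ b)
    (hb : b < n - m1) : m1 + 1 ≤ n - b - u0 b := by
  rcases Nat.lt_or_ge b p with hp | hp
  · have := h.B4 b hq hp
    omega
  · rw [h.B1 b hp]
    omega

/-- nestedness of the low rows -/
lemma InvF.nested {n m1 p q m : ℕ} {u0 u : ℕ → ℕ} {μ : ℕ} (h : InvF n m1 p q u0 u μ) (hm : m ≤ m1) :
    ∀ b b', b < b' → b' < n - m1 → min (n - b - u b) m ≤ min (n - b' - u b') m := by
  intro b b' hb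
  induction b', hb using Nat.le_induction with
  | base =>
    intro h1
    by_cases h2 : u b < n - b
    · rcases h.V2 b h1 h2 with h3 | ⟨_, h4, h5⟩
      · show min (n - b - u b) m ≤ min (n - (b + 1) - u (b + 1)) m
        omega
      · show min (n - b - u b) m ≤ min (n - (b + 1) - u (b + 1)) m
        have h1' : b + 1 < n - m1 := h1
        omega
    · show min (n - b - u b) m ≤ min (n - (b + 1) - u (b + 1)) m
      omega
  | succ c hc ih =>
    intro h1
    have h0 := ih (by omega)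
    by_cases h2 : u c < n - c
    · rcases h.V2 c h1 h2 with h3 | ⟨_, h4, h5⟩
      · omega
      · omega
    · omega

end Pool.Agent.Helper28.HG
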