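import Pool.Agent.Helper28.HG.Fin
import Pool.Agent.Helper28.HG.Bez

/-!
# Project HG: Q1 in the windows (block HG-QW)

`m0 i = m i` if `3 ≤ m i`, else `0`.  `A` contains the indices of the two largest `m0`; either `A = {i1, i2}` or
`∑_{A} m0 ≤ d + 1`.
PROOF.  By `QS.small` (HH/Qs.lean) it is enough to prove `QS n d m0`.  If `d < m0 i1 + m0 i2`: `QS.line`.  Otherwise
`∑_{A} m0 ≤ d + 1` in both cases (`A = {i1, i2}`: `Finset.sum_pair`).  (S): `windowS` gives `FR d m0 p`.  (E): `windowE` (`hA2` is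
`m0 i1 + m0 i2 ≤ d`) gives `KR d m0 p`; an irreducible `f` with `Van m0 p f`, `totalDegree f = d` would be `0`
(`KR.eq_zero` in HH/GG2.lean), so `QS` holds vacuously.
-/

set_option autoImplicit false

namespace Pool.Agent.Helper28.HG

open Pool.Agent.Helper28.HH MvPolynomial

private lemma sumA34 {n d : ℕ} {m0 : Fin n → ℕ} (A : Finset (Fin n)) {i1 i2 : Fin n} (h12 : i1 ≠ i2)
    (hA : A = {i1, i2} ∨ ∑ i ∈ A, m0 i ≤ d + 1) (hl : ¬ d < m0 i1 + m0 i2) :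
    ∑ i ∈ A, m0 i ≤ d + 1 := by
  rcases hA with hA | hA
  · rw [hA, Finset.sum_pair h12]
    omega
  · exact hA

theorem QS_windowS {n d : ℕ} {m : Fin n → ℕ} (hd : 2 ≤ d) (A : Finset (Fin n)) {i1 i2 : Fin n}
    (h12 : i1 ≠ i2) (hi1 : i1 ∈ A) (hi2 : i2 ∈ A) {m0 : Fin n → ℕ}
    (hm0 : m0 = fun i => if 3 ≤ m i then m i else 0)
    (h1 : ∀ j, m0 j ≤ m0 i1) (h2 : ∀ j, j ≠ i1 → m0 j ≤ m0 i2)
    (hA : A = {i1, i2} ∨ ∑ i ∈ A, m0 i ≤ d + 1)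
    (h0 : 0 ≤ ((d : ℤ) + 1) * ((d : ℤ) + 2) - ∑ i, ((m0 i : ℤ) * ((m0 i : ℤ) + 1)))
    (h : ∀ i j, i ∉ A → j ∉ A → i ≠ j → 1 ≤ m0 i → 1 ≤ m0 j →
      2 * (((m0 i : ℤ) - 1) * ((m0 j : ℤ) - 1)) ≤
        ((d : ℤ) + 1) * ((d : ℤ) + 2) - ∑ i, ((m0 i : ℤ) * ((m0 i : ℤ) + 1))) :
    QS n d m := by
  have key : QS n d m0 := by
    by_cases hl : d < m0 i1 + m0 i2
    · exact QS.line hd h12 hl
    · obtain ⟨g, hg, hp⟩ := windowS A h12 hi1 hi2 h1 h2 (sumA34 A h12 hA hl) h0 h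
      exact ⟨g, hg, fun p hgp _ => hp p hgp⟩
  rw [hm0] at key
  exact QS.small key

theorem QS_windowE {n d : ℕ} {m : Fin n → ℕ} (hd : 2 ≤ d) (A : Finset (Fin n)) {i1 i2 i3 : Fin n}
    (h12 : i1 ≠ i2) (hi1 : i1 ∈ A) (hi2 : i2 ∈ A) (hi3 : i3 ∉ A) {m0 : Fin n → ℕ}
    (hm0 : m0 = fun i => if 3 ≤ m i then m i else 0)
    (h1 : ∀ j, m0 j ≤ m0 i1) (h2 : ∀ j, j ≠ i1 → m0 j ≤ m0 i2) (h3 : ∀ j, j ∉ A → m0 j ≤ m0 i3)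
    (hA : A = {i1, i2} ∨ ∑ i ∈ A, m0 i ≤ d + 1)
    (h0 : ((d : ℤ) + 1) * ((d : ℤ) + 2) ≤ ∑ i, ((m0 i : ℤ) * ((m0 i : ℤ) + 1)))
    (h : ∀ j, j ∉ A → j ≠ i3 → 1 ≤ m0 j → (m0 i3 : ℤ) * ((m0 j : ℤ) - 1) ≤
      ∑ i, ((m0 i : ℤ) * ((m0 i : ℤ) + 1)) - ((d : ℤ) + 1) * ((d : ℤ) + 2)) :
    QS n d m := by
  have key : QS n d m0 := by
    by_cases hl : d < m0 i1 + m0 i2
    · exact QS.line hd h12 hl
    · obtain ⟨g, hg, hp⟩ := windowE A h12 hi1 hi2 hi3 h1 h2 h3 (sumA34 A h12 hA hl)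
        (not_lt.mp hl) h0 h
      refine ⟨g, hg, fun p hgp hf => ?_⟩
      obtain ⟨f, hf1, hf2, hf3⟩ := hf
      exact absurd ((hp p hgp).eq_zero hf2.le hf3) hf1.ne_zero
  rw [hm0] at key
  exact QS.small key

end Pool.Agent.Helper28.HG
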