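import Pool.Agent.Helper28.HG.Base

/-!
# Project HG: the last point (block HG-A2)

Adapt `Pool.Agent.Helper28.HH.lastA` (file HH/StA2.lean).  `K := max F p`.  (room) `K + m ≤ n`: if `F < p` then `B5` (`p ≠ 0`,
`m ≤ M`); if `p ≤ F`: as in `lastA` (for `i ≤ b < F`: `r b ≤ r F = n - F`, `A3` with `Base.anti`).  Then `GoodD.mono` from
the diagram `DS n ũ`, `ũ b = n` for `b < K`, `0` for `b ≥ K` (for `b ≥ K` `u b = u0 b = 0`), `row_good` with `i = j = K`,
`s b = m - (b - K)` for `K ≤ b < K + m`, `0` otherwise, `GoodD.nil`.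
-/

set_option autoImplicit false

namespace Pool.Agent.Helper28.HG

open Pool.Agent.Helper28.HH

private lemma sum_T_h54 (k : ℕ) : ∑ c ∈ Finset.range k, (k - c) = T k := by
  induction k with
  | zero => simp
  | succ k ih =>
    rw [Finset.sum_range_succ', T_succ, ← ih]
    simp only [Nat.add_sub_add_right, Nat.sub_zero]

private lemma sum_bound_h54 {n i F h : ℕ} (r : ℕ → ℕ) (h0 : ∀ b, b < i → r b = 0)
    (h1 : ∀ b, i ≤ b → b < F → r b ≤ h) (h2 : ∀ b, F ≤ b → r b ≤ n - b) :
    ∑ b ∈ Finset.range n, r b ≤ (F - i) * h + T (n - F) := by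
  have key : ∀ b ∈ Finset.range n, r b ≤
      (if b ∈ Finset.Ico i F then h else 0) + (if F ≤ b then n - b else 0) := by
    intro b _
    by_cases hb : b < i
    · rw [h0 b hb]
      exact Nat.zero_le _
    · push Not at hb
      by_cases hF : b < F
      · rw [if_pos (Finset.mem_Ico.mpr ⟨hb, hF⟩)]
        exact (h1 b hb hF).trans (Nat.le_add_right _ _)
      · push Not at hF
        rw [if_pos hF]
        exact (h2 b hF).trans (Nat.le_add_left _ _)
  refine (Finset.sum_le_sum key).trans ?_
  rw [Finset.sum_add_distrib]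
  refine Nat.add_le_add ?_ ?_
  · rw [Finset.sum_ite_mem, Finset.sum_const, smul_eq_mul]
    refine Nat.mul_le_mul_right _ ?_
    refine (Finset.card_le_card Finset.inter_subset_right).trans ?_
    rw [Nat.card_Ico]
  · rw [← Finset.sum_filter]
    have h3 : (Finset.range n).filter (fun b => F ≤ b) = Finset.Ico F n := by
      ext b
      simp only [Finset.mem_filter, Finset.mem_range, Finset.mem_Ico]
      exact ⟨fun h => ⟨h.2, h.1⟩, fun h => ⟨h.2, h.1⟩⟩
    rw [h3, Finset.sum_Ico_eq_sum_range, ← sum_T_h54 (n - F)]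
    refine le_of_eq (Finset.sum_congr rfl fun c _ => ?_)
    omega

private lemma mono_h54 {n p q M : ℕ} {u0 u : ℕ → ℕ} {i F F' μ : ℕ} (hB : Base n p q M u0)
    (hI : InvG n p u0 u i F F' μ) :
    ∀ k b, i ≤ b → b + k = F → n - b - u b ≤ n - F := by
  intro k
  induction k with
  | zero =>
    intro b _ hb
    subst hb
    omega
  | succ k ih =>
    intro b hb hk
    have h1 := hI.A3 b hb (by omega)
    have h2 := ih (b + 1) (by omega) (by omega)
    have h3 := hB.anti b
    omega

theorem lastG {n p q M m : ℕ} {u0 u : ℕ → ℕ} {i F F' μ : ℕ} (hB : Base n p q M u0)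
    (hI : InvG n p u0 u i F F' μ) (hm : 1 ≤ m) (hμ : μ ≤ m) (hM : m ≤ M)
    (hR : T (m - 1) + (m - 1) * μ + 1 ≤ (DS n u).card) : GoodD (DS n u) [m] := by
  obtain ⟨K, hK⟩ : ∃ K, K = max F p := ⟨_, rfl⟩
  have hFK : F ≤ K := by rw [hK]; exact le_max_left _ _
  have hpK : p ≤ K := by rw [hK]; exact le_max_right _ _
  have hKm : K + m ≤ n := by
    rcases Nat.lt_or_ge F p with hFp | hFp
    · have h1 : K = p := by rw [hK]; exact max_eq_right hFp.le
      rcases hB.B5 with h2 | h2
      · omega
      · omega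
    · have hKF : K = F := by rw [hK]; exact max_eq_left hFp
      by_contra hcon
      push Not at hcon
      have h1 : ∑ b ∈ Finset.range n, (n - b - u b) ≤ (F - i) * (n - F) + T (n - F) := by
        refine sum_bound_h54 (fun b => n - b - u b) hI.A0 ?_ ?_
        · intro b hb hF
          exact mono_h54 hB hI (F - b) b hb (by omega)
        · intro b _
          exact Nat.sub_le _ _
      rw [card_DS] at hR
      have h2 : n - F ≤ m - 1 := by omega
      have h3 : T (n - F) ≤ T (m - 1) := T_mono h2
      have h4 : F - i ≤ μ := by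
        have := hI.A6
        omega
      have h5 : (F - i) * (n - F) ≤ μ * (m - 1) := Nat.mul_le_mul h4 h2
      rw [mul_comm μ] at h5
      omega
  have hu : ∀ b, K ≤ b → u b = 0 := by
    intro b hb
    rw [hI.A1 b (hFK.trans hb), hB.B1 b (hpK.trans hb)]
  refine GoodD.mono (E := DS n (fun b => if b < K then n else 0)) ?_ ?_
  · intro e he
    rw [mem_DS] at he ⊢
    refine ⟨he.1, ?_⟩
    have h1 := he.2
    by_cases hF : e.2 < K
    · rw [if_pos hF] at h1
      omega
    · push Not at hF
      rw [hu _ hF]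
      exact Nat.zero_le _
  · refine row_good (i := K) (j := K) (s := fun b => if K ≤ b ∧ b < K + m then m - (b - K) else 0)
      le_rfl (Nat.le_add_right _ _) ?_ ?_ ?_ ?_ ?_ ?_ ?_ ?_ ?_ (GoodD.nil _)
    · intro b hb
      simp only [if_pos hb]
      omega
    · intro b h1 h2
      omega
    · intro b hb
      simp only [if_neg (not_lt.mpr hb)]
      split_ifs with h
      · omega
      · omega
    · intro b hb
      rw [if_neg (by omega)]
    · intro b hb
      rw [if_neg (by omega)]
    · intro b h1 h2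
      rw [if_pos ⟨h1, h2⟩]
      omega
    · intro b h1 h2
      rw [if_pos (show K ≤ b ∧ b < K + m from ⟨h1, h2⟩)]
      split_ifs with h
      · omega
      · omega
    · intro x hx y hy hxy
      simp only at hxy
      rw [Set.mem_Ico] at hx hy
      rw [if_pos hx, if_pos hy] at hxy
      omega
    · rw [Finset.sum_Ico_eq_sum_range, Nat.add_sub_cancel_left, ← sum_T_h54 m]
      refine Finset.sum_congr rfl fun c hc => ?_
      rw [Finset.mem_range] at hc
      rw [if_pos ⟨Nat.le_add_right _ _, by omega⟩]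
      omega

end Pool.Agent.Helper28.HG
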