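import Pool.Agent.Helper28.HG.StA1
import Pool.Agent.Helper28.HG.StA2
import Pool.Agent.Helper28.HH.StA

/-!
# Project HG: independence on the diagram of a base (block HG-A3)

Adapt `stA` and `thmS` of HH/StA.lean (`sta_zero`, `sta_zeros`, `sta_sum_zeros` can be cited) with `stepG`, `lastG` in
place of `stepA`, `lastA`; the initial invariant is `InvG n p u0 u0 0 0 0 0` (`A2` from `Base.cap`).
-/

set_option autoImplicit false

namespace Pool.Agent.Helper28.HG

open Pool.Agent.Helper28.HH

theorem stG50 {n p q M M1 M2 : ℕ} {u0 : ℕ → ℕ} (hB : Base n p q M u0) (h21 : M2 ≤ M1) (h1 : 1 ≤ M1) (hM : M1 ≤ M) :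
    ∀ pre : List ℕ, pre.Pairwise (· ≤ ·) →
    (∀ m ∈ pre, 1 ≤ m ∧ m ≤ M2) → ∀ (u : ℕ → ℕ) (i F F' μ : ℕ), InvG n p u0 u i F F' μ → μ ≤ M2 →
    (∀ m ∈ pre, μ ≤ m) →
    (pre.map T).sum + T M1 + (M1 - 1) * (M2 - 1) ≤ (DS n u).card → GoodD (DS n u) (pre ++ [M1]) := by
  intro pre
  induction pre with
  | nil =>
    intro _ _ u i F F' μ hI hμ _ hR
    rw [List.nil_append]
    apply lastG hB hI h1 (hμ.trans h21) hM
    have e1 : T M1 = T (M1 - 1) + M1 := by
      have := T_succ (M1 - 1)
      rwa [Nat.sub_add_cancel h1] at this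
    have e2 : (M1 - 1) * μ + 1 ≤ M1 + (M1 - 1) * (M2 - 1) := by
      rcases Nat.eq_zero_or_pos M2 with h0 | h0
      · have : μ = 0 := by omega
        rw [this, mul_zero]
        omega
      · have e3 : (M1 - 1) * μ ≤ (M1 - 1) * (M2 - 1 + 1) := Nat.mul_le_mul_left _ (by omega)
        rw [mul_add, mul_one] at e3
        omega
    simp only [List.map_nil, List.sum_nil] at hR
    omega
  | cons m pre ih =>
    intro hp hb u i F F' μ hI hμ hle hR
    rw [List.pairwise_cons] at hp
    obtain ⟨hm1, hm2⟩ := hb m (List.mem_cons_self)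
    have hμm : μ ≤ m := hle m (List.mem_cons_self)
    rw [List.map_cons, List.sum_cons] at hR
    have e1 : T m = T (m - 1) + m := by
      have := T_succ (m - 1)
      rwa [Nat.sub_add_cancel hm1] at this
    have e2 : T (μ - 1) ≤ T (m - 1) := T_mono (by omega)
    have e3 : T m ≤ T M1 := T_mono (by omega)
    have e4 : (m - 1) * (m - 1) ≤ (M1 - 1) * (M2 - 1) := Nat.mul_le_mul (by omega) (by omega)
    have e5 : (m - 1) * μ ≤ (m - 1) * (m - 1) + (m - 1) := by
      calc (m - 1) * μ ≤ (m - 1) * (m - 1 + 1) := Nat.mul_le_mul_left _ (by omega)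
        _ = (m - 1) * (m - 1) + (m - 1) := by rw [mul_add, mul_one]
    obtain ⟨u', i', F1, F1', hI', hc, hg⟩ := stepG hB hI hm1 hμm (by omega) (by omega)
    rw [List.cons_append]
    apply hg
    exact ih hp.2 (fun x hx => hb x (List.mem_cons_of_mem _ hx)) u' i' F1 F1' m hI' hm2 hp.1 (by omega)

theorem thmG {n p q M M1 M2 : ℕ} {u0 : ℕ → ℕ} (hB : Base n p q M u0) {ms : List ℕ} (h21 : M2 ≤ M1)
    (hms : ∀ m ∈ ms, m ≤ M2) (hM : M1 ≤ M)
    (h : T M1 + T M2 + (ms.map T).sum + (M1 - 1) * (M2 - 1) ≤ (DS n u0).card) :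
    GoodD (DS n u0) (M1 :: M2 :: ms) := by
  classical
  rcases Nat.eq_zero_or_pos M1 with h0 | h1
  · have hz := sta_zeros (GoodD.nil (DS n u0)) (M1 :: M2 :: ms) (by
      intro z hz
      rw [List.mem_cons, List.mem_cons] at hz
      rcases hz with hz | hz | hz
      · omega
      · omega
      · have := hms z hz
        omega)
    rwa [List.append_nil] at hz
  set l0 : List ℕ := (M2 :: ms).filter (fun x => decide (x ≠ 0)) with hl0
  set z0 : List ℕ := (M2 :: ms).filter (fun x => !decide (x ≠ 0)) with hz0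
  have hperm : (l0 ++ z0).Perm (M2 :: ms) := List.filter_append_perm _ _
  have hz0' : ∀ z ∈ z0, z = 0 := by
    intro z hz
    rw [hz0, List.mem_filter] at hz
    simpa using hz.2
  have hl0' : ∀ m ∈ l0, 1 ≤ m ∧ m ≤ M2 := by
    intro m hm
    rw [hl0, List.mem_filter] at hm
    refine ⟨Nat.one_le_iff_ne_zero.2 (by simpa using hm.2), ?_⟩
    rcases List.mem_cons.1 hm.1 with h2 | h2
    · exact h2.le
    · exact hms m h2
  have hsum : (l0.map T).sum = T M2 + (ms.map T).sum := by
    have e1 := (hperm.map T).sum_eq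
    rw [List.map_append, List.sum_append, sta_sum_zeros z0 hz0', List.map_cons, List.sum_cons] at e1
    omega
  set l : List ℕ := l0.insertionSort (· ≤ ·) with hl
  have hlp : l.Perm l0 := List.perm_insertionSort _ _
  have hls : l.Pairwise (· ≤ ·) := List.pairwise_insertionSort _ _
  have hI : InvG n p u0 u0 0 0 0 0 := by
    refine ⟨?_, ?_, ?_, ?_, ?_, ?_, ?_, ?_⟩
    · intro b hb
      omega
    · intro b _
      rfl
    · intro b
      exact ⟨le_refl _, hB.cap b⟩
    · intro b _ hb
      omega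
    · intro b _ hb
      omega
    · intro b _ _ hb
      omega
    · exact le_refl _
    · exact le_refl _
  have hgood := stG50 hB h21 h1 hM l hls (fun m hm => hl0' m (hlp.mem_iff.1 hm)) u0 0 0 0 0 hI
    (Nat.zero_le _) (fun _ _ => Nat.zero_le _) (by
      rw [(hlp.map T).sum_eq, hsum]
      omega)
  have hg2 := sta_zeros hgood z0 hz0'
  refine hg2.perm ?_
  refine (List.perm_append_comm (l₁ := z0)).trans ?_
  rw [List.append_assoc]
  have p1 : (l ++ ([M1] ++ z0)).Perm ([M1] ++ (l ++ z0)) := by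
    rw [← List.append_assoc, ← List.append_assoc]
    exact List.perm_append_comm.append_right z0
  refine p1.trans ?_
  rw [List.singleton_append]
  exact ((hlp.append_right z0).trans hperm).cons M1

end Pool.Agent.Helper28.HG
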