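import Pool.Agent.Helper28.HG.Base

/-!
# Project HG: the general intermediate step (block HG-A1)

Adapt the proof of `Pool.Agent.Helper28.HH.stepA` (file HH/StA1.lean; its public lemmas `sta1_sum_desc`,
`sta1_sum_tail`, `sta1_T_add`, `sta1_card_le` can be cited, they do not mention the invariant).  Put `r b = n - b - u b`.

(mono) for `i ≤ b ≤ c ≤ F` `r b ≤ r c` (`A3` and `Base.anti` give `u (b+1) + 1 ≤ u b`).
(first) the first row `i` may be raised to the first nonempty row `i0`, replacing `F` by `max F i0` (`A1` stays, `A3` on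
`[i0, max F i0)` is old or void, `A6`: `max F i0 ≤ i0 + μ`).
(room) if `R ≥ T(m-1) + (m-1) μ + 1` then `max F p + m ≤ n`: if `F < p` then `p > 0` and `B5` with `m ≤ M`; if `p ≤ F` as
in `sta1_room` (`r F = n - F`).
(mono2) for `i ≤ b ≤ c ≤ max F p` `r b ≤ r c` (on `[F, max F p)` `u = u0` and `Base.le`).
(big) for `p ≤ b`, `i ≤ b`, `F' ≤ b < F`: `m ≤ r b`, as `sta1_big` (`u0 b = 0` there).
`stepG`: `i` := first nonempty row, `i ≤ F`.  `j` = first row `≥ i` with `r j ≥ m`; `j ≤ max F p` by (room).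
For `i ≤ b`, `b + 1 < j`: `r b < r (b+1)`: `b < F'`: `A4`.  `F' ≤ b < F`: if `b < p`: `A3` and `B3` give `u (b+1) + 2 ≤ u b`; if
`p ≤ b`: (big) contradicts `b < j`.  `F ≤ b`: `u = u0` at `b`, `b+1`: `b < q`: `Base.lt`; `q ≤ b < p`: `r b ≥ M ≥ m` by `B4`,
contradiction; `p ≤ b`: then `b ≥ max F p ≥ j`, contradiction.  Sizes `≥ 1` by (mono2).  `choose_sizes` with `X = r` gives `s`.
Capacity `s b ≤ r b` for `i ≤ b < i + m`: `b < j` equality; `j ≤ b ≤ max F p`: `r b ≥ r j ≥ m ≥ s b`; `b > max F p`: `r b = n - b`,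
`s b ≤ m - (b - j)`, `j + m ≤ n`.  `row_good`.  New state: `u + s`, `i' = j`, `F1 = i + m`, `F1' = F`.
`A1`: `F ≤ i + μ ≤ i + m`.  `A3`: `s (b+1) + 1 ≤ s b` on `[j,i+m)` and `u (b+1) + u0 b ≤ u b + u0 (b+1)` for all `b ≥ i` (`A3`
below `F`, `A1` from `F` on).  `A4` (for `j ≤ b < F`): `u' (b+1) + 2 ≤ u' b`.  `A5`: `b ≥ F`, `b ≥ p`: `u' b = s b ≤ m - (b - j)`.
-/

set_option autoImplicit false

namespace Pool.Agent.Helper28.HG

open Pool.Agent.Helper28.HH

/-- the state drops by at least one on `[i, F)` -/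
private lemma InvG.sg_drop {n p q M : ℕ} {u0 u : ℕ → ℕ} {i F F' μ : ℕ} (hB : Base n p q M u0)
    (hI : InvG n p u0 u i F F' μ) {b : ℕ} (hib : i ≤ b) (hbF : b < F) : u (b + 1) + 1 ≤ u b := by
  have h1 := hI.A3 b hib hbF
  have h2 := hB.anti b
  omega

/-- monotone rows -/
private lemma InvG.sg_mono {n p q M : ℕ} {u0 u : ℕ → ℕ} {i F F' μ : ℕ} (hB : Base n p q M u0)
    (hI : InvG n p u0 u i F F' μ) {b c : ℕ} (hib : i ≤ b)
    (hbc : b ≤ c) (hcF : c ≤ max F p) : n - b - u b ≤ n - c - u c := by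
  induction c, hbc using Nat.le_induction with
  | base => exact le_refl _
  | succ c hc ih =>
    have h1 := ih (by omega)
    refine h1.trans ?_
    by_cases hF : c < F
    · have h2 := hI.sg_drop hB (b := c) (by omega) hF
      have h3 := hI.A2 c
      omega
    · have hcp : c < p := by
        rcases le_total F p with h | h
        · rw [max_eq_right h] at hcF
          omega
        · rw [max_eq_left h] at hcF
          omega
      rw [hI.A1 c (not_lt.1 hF), hI.A1 (c + 1) (by omega)]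
      exact hB.le hcp

/-- the first row may be increased over empty rows -/
private lemma InvG.sg_first {n p : ℕ} {u0 u : ℕ → ℕ} {i F F' μ : ℕ} (hI : InvG n p u0 u i F F' μ)
    (hR : 1 ≤ (DS n u).card) :
    ∃ i0 F0, InvG n p u0 u i0 F0 F' μ ∧ i0 ≤ F0 ∧ 1 ≤ n - i0 - u i0 := by
  classical
  have hex : ∃ b, 1 ≤ n - b - u b := by
    by_contra h
    push Not at h
    rw [card_DS] at hR
    have h1 : ∑ b ∈ Finset.range n, (n - b - u b) = 0 := by
      apply Finset.sum_eq_zero
      intro b _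
      have := h b
      omega
    omega
  have h1 := Nat.find_spec hex
  have h2 : ∀ b, b < Nat.find hex → n - b - u b = 0 := by
    intro b hb
    have := Nat.find_min hex hb
    omega
  have h3 : i ≤ Nat.find hex := by
    by_contra h
    have := hI.A0 _ (not_le.1 h)
    omega
  have h6 := hI.A6
  have h7 := hI.A7
  refine ⟨Nat.find hex, max F (Nat.find hex),
    ⟨h2, fun b hb => hI.A1 b (by omega), hI.A2, ?_, ?_, ?_, ?_, ?_⟩, by omega, h1⟩
  · intro b hb1 hb2
    exact hI.A3 b (by omega) (by omega)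
  · intro b hb1 hb2
    exact hI.A4 b (by omega) hb2
  · intro b hb1 hb2 hb3 hb4
    have := hI.A5 b (by omega) hb2 (by omega) hb4
    omega
  · omega
  · omega

/-- fact (room) -/
private lemma InvG.sg_room {n p q M m : ℕ} {u0 u : ℕ → ℕ} {i F F' μ : ℕ} (hB : Base n p q M u0)
    (hI : InvG n p u0 u i F F' μ) (hM : m ≤ M) (hiF : i ≤ F)
    (hR : T (m - 1) + (m - 1) * μ + 1 ≤ (DS n u).card) : max F p + m ≤ n := by
  rcases Nat.lt_or_ge F p with hFp | hpF
  · have h1 := hB.B5
    omega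
  rw [max_eq_left hpF]
  by_contra hlt
  push Not at hlt
  have hF := hI.A1 F le_rfl
  rw [hB.B1 F hpF] at hF
  have h1 := sta1_card_le (n := n) (u := u) (i := i) (c := F) (h := m - 1) hiF hI.A0
    (fun b hb1 hb2 => by
      have := hI.sg_mono hB hb1 hb2.le (le_max_left F p)
      omega)
  have h2 : ∑ b ∈ Finset.Ico F n, (n - b - u b) ≤ T (m - 1) := by
    calc ∑ b ∈ Finset.Ico F n, (n - b - u b) ≤ ∑ b ∈ Finset.Ico F n, (n - b) :=
          Finset.sum_le_sum (fun b _ => by omega)
      _ = T (n - F) := sta1_sum_tail n F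
      _ ≤ T (m - 1) := T_mono (by omega)
  have h3 : (F - i) * (m - 1) ≤ (m - 1) * μ := by
    rw [mul_comm]
    apply Nat.mul_le_mul_left
    have := hI.A6
    omega
  omega

/-- fact (big) -/
private lemma InvG.sg_big {n p q M m : ℕ} {u0 u : ℕ → ℕ} {i F F' μ : ℕ} (hB : Base n p q M u0)
    (hI : InvG n p u0 u i F F' μ) (hm : 1 ≤ m)
    (hR : T (m - 1) + (m - 1) * μ + T (μ - 1) + 1 ≤ (DS n u).card) {b : ℕ} (hpb : p ≤ b)
    (hib : i ≤ b) (hF' : F' ≤ b) (hbF : b < F) : m ≤ n - b - u b := by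
  by_contra hlt
  push Not at hlt
  have h5 := hI.A5 b hib hF' hbF hpb
  have h3 := hI.sg_drop hB hib hbF
  have h2 := hI.A2 b
  obtain ⟨σ, hσ⟩ : ∃ σ, u b = σ + 1 := ⟨u b - 1, by omega⟩
  have h1 := sta1_card_le (n := n) (u := u) (i := i) (c := b) (h := m - 1) hib hI.A0
    (fun c hc1 hc2 => by
      have := hI.sg_mono hB hc1 hc2.le (hbF.le.trans (le_max_left F p))
      omega)
  have hbn : b < n := by omega
  have h6 : ∑ c ∈ Finset.Ico b n, (n - c - u c) + (σ + 1) ≤ T (n - b) := by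
    rw [← sta1_sum_tail n b, Finset.sum_eq_sum_Ico_succ_bot hbn, Finset.sum_eq_sum_Ico_succ_bot hbn]
    have : ∑ c ∈ Finset.Ico (b + 1) n, (n - c - u c) ≤ ∑ c ∈ Finset.Ico (b + 1) n, (n - c) :=
      Finset.sum_le_sum (fun c _ => by omega)
    omega
  have h7 : T (n - b) ≤ T ((m - 1) + (σ + 1)) := T_mono (by omega)
  rw [sta1_T_add, T_succ] at h7
  have h8 : T σ ≤ T (μ - 1) := T_mono (by omega)
  have h9 : (b - i) * (m - 1) + (m - 1) * (σ + 1) ≤ (m - 1) * μ := by
    rw [mul_comm (b - i), ← mul_add]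
    apply Nat.mul_le_mul_left
    omega
  omega

theorem stepG {n p q M m : ℕ} {u0 u : ℕ → ℕ} {i F F' μ : ℕ} (hB : Base n p q M u0)
    (hI : InvG n p u0 u i F F' μ) (hm : 1 ≤ m) (hμ : μ ≤ m) (hM : m ≤ M)
    (hR : T (m - 1) + (m - 1) * μ + T (μ - 1) + 1 ≤ (DS n u).card) :
    ∃ u' i' F1 F1', InvG n p u0 u' i' F1 F1' m ∧ (DS n u').card + T m = (DS n u).card ∧
      ∀ ms : List ℕ, GoodD (DS n u') ms → GoodD (DS n u) (m :: ms) := by
  classical
  obtain ⟨i, F, hI, hiF, hri⟩ := hI.sg_first (by omega)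
  have hroom : max F p + m ≤ n := hI.sg_room hB hM hiF (by omega)
  have hA6 := hI.A6
  obtain ⟨P, hP⟩ : ∃ P, P = max F p := ⟨_, rfl⟩
  rw [← hP] at hroom
  have hFP : F ≤ P := by omega
  have hpP : p ≤ P := by omega
  have hPp : ∀ b, F ≤ b → b < P → b < p := by
    intro b hb1 hb2
    omega
  have hP0 : ∀ b, P ≤ b → u b = 0 := by
    intro b hb
    rw [hI.A1 b (by omega), hB.B1 b (by omega)]
  have hmono : ∀ b c, i ≤ b → b ≤ c → c ≤ P → n - b - u b ≤ n - c - u c := by
    intro b c h1 h2 h3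
    exact hI.sg_mono hB h1 h2 (by omega)
  have hPP := hP0 P le_rfl
  have hex : ∃ b, i ≤ b ∧ m ≤ n - b - u b := ⟨P, by omega, by omega⟩
  obtain ⟨j, ⟨hij, hjm⟩, hjmin⟩ : ∃ j, (i ≤ j ∧ m ≤ n - j - u j) ∧
      ∀ b, b < j → ¬ (i ≤ b ∧ m ≤ n - b - u b) :=
    ⟨Nat.find hex, Nat.find_spec hex, fun b hb => Nat.find_min hex hb⟩
  have hjP : j ≤ P := by
    by_contra h
    exact hjmin P (not_le.1 h) ⟨by omega, by omega⟩
  have hlt : ∀ b, i ≤ b → b < j → n - b - u b < m := by
    intro b hb1 hb2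
    have := hjmin b hb2
    omega
  have hstrict : ∀ b, i ≤ b → b + 1 < j → n - b - u b < n - (b + 1) - u (b + 1) := by
    intro b hb1 hb2
    have h1 := hlt b hb1 (by omega)
    by_cases hF' : b < F'
    · exact hI.A4 b hb1 hF'
    · by_cases hF : b < F
      · by_cases hp : b < p
        · have h2 := hI.A3 b hb1 hF
          have h3 := hB.B3 b hp
          have h4 := hI.A2 b
          omega
        · have h2 := hI.sg_big hB hm hR (not_lt.1 hp) hb1 (not_lt.1 hF') hF
          omega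
      · have hp : b < p := hPp b (not_lt.1 hF) (by omega)
        have h2 := hI.A1 b (not_lt.1 hF)
        have h3 := hI.A1 (b + 1) (by omega)
        by_cases hq : b < q
        · rw [h2, h3]
          exact hB.lt hq
        · have h4 := hB.B4 b (not_lt.1 hq) hp
          omega
  have hpos : ∀ b, i ≤ b → b ≤ P → 1 ≤ n - b - u b := by
    intro b hb1 hb2
    have := hmono i b le_rfl hb1 hb2
    omega
  obtain ⟨hjim, s, hsa, hsb, hsc, hsd, hse, hsf, hinj, hsum⟩ :=
    choose_sizes (m := m) hij (fun b => n - b - u b)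
      (fun b hb1 hb2 => ⟨hpos b hb1 (by omega), hlt b hb1 hb2⟩)
      (fun b hb1 hb2 => hstrict b hb1 hb2) hm
  have hcap : ∀ b, i ≤ b → s b ≤ n - b - u b := by
    intro b hb
    by_cases h1 : b < j
    · exact (hsa b hb h1).le
    · by_cases h2 : b < i + m
      · by_cases h3 : b ≤ P
        · have h4 := hmono j b hij (not_lt.1 h1) h3
          have h5 := (hsd b hb h2).2
          omega
        · have h4 := hP0 b (by omega)
          have h5 := hsf b (not_lt.1 h1) h2
          omega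
      · rw [hsc b (not_lt.1 h2)]
        exact Nat.zero_le _
  have hcap' : ∀ b, s b ≤ n - b - u b := by
    intro b
    by_cases h1 : b < i
    · rw [hsb b h1]
      exact Nat.zero_le _
    · exact hcap b (not_lt.1 h1)
  refine ⟨fun b => u b + s b, j, i + m, F, ⟨?_, ?_, ?_, ?_, ?_, ?_, ?_, ?_⟩, ?_, ?_⟩
  · intro b hb
    show n - b - (u b + s b) = 0
    by_cases h1 : b < i
    · have := hI.A0 b h1
      omega
    · have : s b = n - b - u b := hsa b (not_lt.1 h1) hb
      omega
  · intro b hb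
    show u b + s b = u0 b
    rw [hI.A1 b (by omega), hsc b hb, add_zero]
  · intro b
    show u0 b ≤ u b + s b ∧ u b + s b ≤ n - b
    have h1 := hcap' b
    have h2 := hI.A2 b
    omega
  · intro b hb1 hb2
    show u (b + 1) + s (b + 1) + u0 b + 1 ≤ u b + s b + u0 (b + 1)
    have h1 := hse b hb1 hb2
    by_cases h2 : b < F
    · have := hI.A3 b (by omega) h2
      omega
    · have h3 := hI.A1 b (not_lt.1 h2)
      have h4 := hI.A1 (b + 1) (by omega)
      omega
  · intro b hb1 hb2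
    show n - b - (u b + s b) < n - (b + 1) - (u (b + 1) + s (b + 1))
    have h1 := hse b hb1 (by omega)
    have h2 := hI.sg_drop hB (by omega) hb2
    have h3 := hI.A2 b
    have h4 := hcap' b
    omega
  · intro b hb1 hb2 hb3 hb4
    show u b + s b + (b - j) ≤ m
    have h1 := hsf b hb1 hb3
    have h2 := hI.A1 b hb2
    have h3 := hB.B1 b hb4
    omega
  · omega
  · omega
  · rw [card_DS, card_DS, ← hsum]
    have hsub : Finset.Ico i (i + m) ⊆ Finset.range n := by
      intro b hb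
      rw [Finset.mem_Ico] at hb
      rw [Finset.mem_range]
      have h1 := (hsd b hb.1 hb.2).1
      have h2 := hcap b hb.1
      omega
    rw [Finset.sum_subset hsub (f := s), ← Finset.sum_add_distrib]
    · apply Finset.sum_congr rfl
      intro b _
      have h1 := hcap' b
      have h2 := hI.A2 b
      show n - b - (u b + s b) + s b = n - b - u b
      omega
    · intro b _ hb
      rw [Finset.mem_Ico] at hb
      by_cases h1 : b < i
      · exact hsb b h1
      · exact hsc b (by omega)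
  · intro ms hms
    exact row_good hij hjim.le hI.A0 hsa hcap hsb hsc hsd hse hinj hsum hms

end Pool.Agent.Helper28.HG
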